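import Pool.Agent.U670.ZS.Transfer

set_option autoImplicit false
set_option linter.unusedSectionVars false

open scoped Matrix ENNReal Pointwise

namespace Pool.Agent.U670.ZS

open Pool.Agent.H919R4.ZS (FinRes RedC toRed)
open Pool.Agent.TH98.ZT (URep bd Tempered)

noncomputable section

variable {G : Type} [Group G] {a b c : ℕ}

section lin

variable {V : Type} [NormedAddCommGroup V] [InnerProductSpace ℂ V]

lemma bd_sub (D : Matrix (Fin a) (Fin b) (MonoidAlgebra ℤ G)) (f g : Fin a → G → V) :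
    bd D (f - g) = bd D f - bd D g := by
  funext k x
  simp only [bd, Pi.sub_apply, smul_sub, Finset.sum_sub_distrib]

lemma bd_smul (D : Matrix (Fin a) (Fin b) (MonoidAlgebra ℤ G)) (z : ℂ) (f : Fin a → G → V) :
    bd D (fun j x => z • f j x) = fun k x => z • bd D f k x := by
  funext k x
  simp only [bd, Finset.smul_sum]
  refine Finset.sum_congr rfl fun j _ => Finset.sum_congr rfl fun g _ => ?_
  rw [smul_comm]

lemma bd_congr {D : Matrix (Fin a) (Fin b) (MonoidAlgebra ℤ G)} {f f' : Fin a → G → V} {x : G}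
    (h : ∀ j, ∀ g ∈ SD D, f j (x * g⁻¹) = f' j (x * g⁻¹)) (k : Fin b) :
    bd D f k x = bd D f' k x := by
  rw [bd, bd]
  refine Finset.sum_congr rfl fun j _ => Finset.sum_congr rfl fun g hg => ?_
  rw [h j g (mem_SD hg)]

end lin

variable {C : Subgroup G} {V : Type} [NormedAddCommGroup V] [InnerProductSpace ℂ V] {π : URep C V}

/-- the step of the iteration -/
def step (E : Matrix (Fin a) (Fin b) (MonoidAlgebra ℤ G)) (κ : ℝ) (v : Fin a → G → V) :
    Fin a → G → V := v - fun j x => ((κ : ℝ) : ℂ) • bd (adjM E) (bd E v) j x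

open Classical in
/-- the set of products of elements occurring in the matrix and its adjoint -/
def SS (E : Matrix (Fin a) (Fin b) (MonoidAlgebra ℤ G)) : Finset G := SD E * SD (adjM E)

open Classical in
lemma isFin_lap {A : Finset (Cos C)} {v : Fin a → G → V} (hv : IsFin π A v)
    (E : Matrix (Fin a) (Fin b) (MonoidAlgebra ℤ G)) {S : Finset G} (hS : SS E ⊆ S) :
    IsFin π (Finset.image₂ mulR A S) (bd (adjM E) (bd E v)) := by
  refine ⟨(hv.1.bd E).bd _, fun k x hx => ?_⟩
  obtain ⟨j, h, hh, h1⟩ := bd_ne_zero hx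
  obtain ⟨i, g, hg, h2⟩ := bd_ne_zero h1
  have h3 := hv.2 i _ h2
  refine Finset.mem_image₂.2 ⟨_, h3, g * h, hS (Finset.mul_mem_mul hg hh), ?_⟩
  rw [mulR_cmk]
  congr 1
  group

open Classical in
lemma isFin_step {A : Finset (Cos C)} {v : Fin a → G → V} (hv : IsFin π A v)
    (E : Matrix (Fin a) (Fin b) (MonoidAlgebra ℤ G)) (κ : ℝ) {S : Finset G} (hS : SS E ⊆ S) :
    IsFin π (A ∪ Finset.image₂ mulR A S) (step E κ v) :=
  (hv.mono Finset.subset_union_left).sub
    (((isFin_lap hv E hS).mono Finset.subset_union_right).smul κ)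

lemma mass_sub_smul (u w : Fin a → G → V) (κ : ℝ) (A : Finset (Cos C)) :
    mass (u - fun j x => ((κ : ℝ) : ℂ) • w j x) A =
      mass u A - 2 * κ * (pair u w A).re + κ ^ 2 * mass w A := by
  have h1 : ∀ x y : V, ‖x - ((κ : ℝ) : ℂ) • y‖ ^ 2 =
      ‖x‖ ^ 2 - 2 * κ * (@inner ℂ V InnerProductSpace.toInner x y).re + κ ^ 2 * ‖y‖ ^ 2 := by
    intro x y
    rw [@norm_sub_sq ℂ, norm_smul, mul_pow, inner_smul_right]
    congr 1
    · congr 1
      change 2 * ((κ : ℂ) * inner ℂ x y).re = _
      rw [Complex.re_ofReal_mul]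
      ring
    · congr 1
      rw [Complex.norm_real, Real.norm_eq_abs, sq_abs]
  simp only [mass, pair, Pi.sub_apply, h1, Finset.sum_add_distrib, Finset.sum_sub_distrib,
    Finset.mul_sum, Complex.re_sum]

lemma pair_sub_smul (f u w : Fin a → G → V) (κ : ℝ) (A : Finset (Cos C)) :
    pair f (u - fun j x => ((κ : ℝ) : ℂ) • w j x) A =
      pair f u A - ((κ : ℝ) : ℂ) * pair f w A := by
  simp only [pair, Pi.sub_apply, inner_sub_right, inner_smul_right, Finset.sum_sub_distrib,
    Finset.mul_sum]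

lemma pair_self (u : Fin a → G → V) (A : Finset (Cos C)) :
    pair u u A = ((mass u A : ℝ) : ℂ) := by
  simp only [pair, mass, Complex.ofReal_sum]
  refine Finset.sum_congr rfl fun j _ => Finset.sum_congr rfl fun q _ => ?_
  rw [inner_self_eq_norm_sq_to_K]
  norm_cast

/-- the pairing with a cycle does not change -/
lemma ipr_step {A : Finset (Cos C)} {f v : Fin a → G → V} (hf : IsLf π f) (hv : IsFin π A v)
    (E : Matrix (Fin a) (Fin b) (MonoidAlgebra ℤ G)) (hE : bd E f = 0) (κ : ℝ) :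
    ipr C f (step E κ v) = ipr C f v := by
  classical
  have h1 := isFin_lap hv E (S := SS E) subset_rfl
  have h2 := hv.mono (Finset.subset_union_left (s₂ := Finset.image₂ mulR A (SS E)))
  have h3 := h1.mono (Finset.subset_union_right (s₁ := A))
  have h4 := isFin_step hv E κ (S := SS E) subset_rfl
  have h5 : ipr C f (bd (adjM E) (bd E v)) = 0 := by
    have h6 := ipr_bd hf (hv.bd (D := E) (S := SD E) subset_rfl) E
    rw [hE] at h6
    rw [bd_adjM, ← h6]
    simp [ipr]
  rw [h4.ipr_eq, step, pair_sub_smul, ← h3.ipr_eq, ← h2.ipr_eq, h5, mul_zero, sub_zero]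

/-- the norm of the step -/
lemma N2_step {A : Finset (Cos C)} {v : Fin a → G → V} (hv : IsFin π A v)
    (E : Matrix (Fin a) (Fin b) (MonoidAlgebra ℤ G)) (κ : ℝ) :
    N2 C (step E κ v) = N2 C v - 2 * κ * N2 C (bd E v) +
      κ ^ 2 * N2 C (bd (adjM E) (bd E v)) := by
  classical
  have h1 := isFin_lap hv E (S := SS E) subset_rfl
  have h2 := hv.mono (Finset.subset_union_left (s₂ := Finset.image₂ mulR A (SS E)))
  have h3 := h1.mono (Finset.subset_union_right (s₁ := A))
  have h4 := isFin_step hv E κ (S := SS E) subset_rfl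
  have h7 := hv.bd (D := E) (S := SD E) subset_rfl
  have h5 : pair v (bd (adjM E) (bd E v)) (A ∪ Finset.image₂ mulR A (SS E)) =
      ((N2 C (bd E v) : ℝ) : ℂ) := by
    rw [← h3.ipr_eq, bd_adjM, ← ipr_bd hv.1 h7 E, h7.ipr_eq, pair_self, h7.N2_eq]
  rw [h4.N2_eq, step, mass_sub_smul, h5, Complex.ofReal_re, ← h2.N2_eq, ← h3.N2_eq]

/-- **the iteration** -/
theorem core (E1 : Matrix (Fin a) (Fin b) (MonoidAlgebra ℤ G))
    (E2 : Matrix (Fin a) (Fin c) (MonoidAlgebra ℤ G))
    (hE : ∀ {W : Type} [AddCommGroup W] (v : Fin b → G → W), bd E2 (bd (adjM E1) v) = 0)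
    {K B : ℝ} (hK0 : 0 ≤ K) (hB0 : 0 ≤ B)
    (hK : ∀ (A : Finset (Cos C)) (v : Fin a → G → V), IsFin π A v →
      N2 C v ≤ K * (N2 C (bd E1 v) + N2 C (bd E2 v)))
    (hB : ∀ (A : Finset (Cos C)) (v : Fin b → G → V), IsFin π A v →
      N2 C (bd (adjM E1) v) ≤ B * N2 C v)
    {S : Finset G} (hS : SS E1 ⊆ S) {ε : ℝ} (hε0 : 0 < ε) (hε : ε * ((B + 1) * (K + 1)) ≤ 1)
    {f : Fin a → G → V} (hf : IsLf π f) (hE1 : bd E1 f = 0)
    {A : Finset (Cos C)} {v : Fin a → G → V} (hv : IsFin π A v) (hE2 : bd E2 v = 0) :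
    ¬ SlowAt S ε f v A := by
  classical
  rintro ⟨r, hr⟩
  apply absurd hr
  rw [not_lt]
  clear hr
  have hε1 : ε ≤ 1 := by
    have h1 : (1 : ℝ) ≤ (B + 1) * (K + 1) := by nlinarith
    nlinarith
  induction r generalizing A v with
  | zero =>
    rw [pow_zero, mul_one, nbhd, mul_comm]
    exact pair_le f v A
  | succ r ih =>
    set κ : ℝ := (B + 1)⁻¹ with hκ
    have hκ0 : 0 < κ := by rw [hκ]; positivity
    have h1 := isFin_step hv E1 κ hS
    have h2 : bd E2 (step E1 κ v) = 0 := by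
      rw [step, bd_sub, bd_smul, hE2, hE]
      funext k x
      simp
    have h3 := ih h1 h2
    have h4 : pair f (step E1 κ v) (A ∪ Finset.image₂ mulR A S) = pair f v A := by
      rw [← h1.ipr_eq, ipr_step hf hv E1 hE1, hv.ipr_eq]
    have h5 : mass (step E1 κ v) (A ∪ Finset.image₂ mulR A S) ≤ (1 - ε) * mass v A := by
      rw [← h1.N2_eq, N2_step hv, ← hv.N2_eq]
      have e1 := hK A v hv
      rw [hE2] at e1
      have e2 : N2 C (0 : Fin c → G → V) = 0 := by simp [N2]
      rw [e2, add_zero] at e1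
      have e3 := hB _ _ (hv.bd (D := E1) (S := SD E1) subset_rfl)
      set n : ℝ := N2 C (bd E1 v) with hn
      have hn0 : 0 ≤ n := N2_nonneg _
      have e4 : κ ^ 2 * N2 C (bd (adjM E1) (bd E1 v)) ≤ κ * n := by
        have e5 : κ ^ 2 * N2 C (bd (adjM E1) (bd E1 v)) ≤ κ ^ 2 * (B * n) :=
          mul_le_mul_of_nonneg_left e3 (by positivity)
        have e6 : κ * B ≤ 1 := by
          rw [hκ, inv_mul_le_iff₀ (by positivity)]
          linarith
        have e7 : κ ^ 2 * (B * n) = (κ * B) * (κ * n) := by ring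
        rw [e7] at e5
        refine e5.trans ?_
        have : 0 ≤ κ * n := by positivity
        nlinarith
      have e8 : ε * N2 C v ≤ κ * n := by
        have e9 : ε * N2 C v ≤ ε * (K * n) := mul_le_mul_of_nonneg_left e1 hε0.le
        have e10 : ε * ((B + 1) * (K + 1)) * n ≤ 1 * n := mul_le_mul_of_nonneg_right hε hn0
        have e11 : κ * (ε * ((B + 1) * (K + 1)) * n) ≤ κ * (1 * n) :=
          mul_le_mul_of_nonneg_left e10 hκ0.le
        have e12 : κ * (ε * ((B + 1) * (K + 1)) * n) = (κ * (B + 1)) * (ε * (K + 1) * n) := by ring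
        rw [e12, hκ, inv_mul_cancel₀ (by positivity), one_mul, one_mul] at e11
        have e13 : 0 ≤ ε * n := by positivity
        nlinarith
      nlinarith
    have hm1 : 0 ≤ mass (step E1 κ v) (A ∪ Finset.image₂ mulR A S) := mass_nonneg _ _
    have hm2 : 0 ≤ mass f (nbhd S r (A ∪ Finset.image₂ mulR A S)) := mass_nonneg _ _
    have hm3 : 0 ≤ mass v A := mass_nonneg _ _
    rw [h4] at h3
    rw [nbhd, pow_succ (1 + ε) r, ← mul_assoc]
    calc ‖pair f v A‖ ^ 2 * (1 + ε) ^ r * (1 + ε)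
        ≤ (mass (step E1 κ v) (A ∪ Finset.image₂ mulR A S) *
          mass f (nbhd S r (A ∪ Finset.image₂ mulR A S))) * (1 + ε) :=
          mul_le_mul_of_nonneg_right h3 (by linarith)
      _ ≤ (((1 - ε) * mass v A) * mass f (nbhd S r (A ∪ Finset.image₂ mulR A S))) * (1 + ε) := by
          refine mul_le_mul_of_nonneg_right (mul_le_mul_of_nonneg_right h5 hm2) (by linarith)
      _ = ((1 - ε) * (1 + ε)) * (mass v A * mass f (nbhd S r (A ∪ Finset.image₂ mulR A S))) := by
          ring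
      _ ≤ 1 * (mass v A * mass f (nbhd S r (A ∪ Finset.image₂ mulR A S))) := by
          refine mul_le_mul_of_nonneg_right (by nlinarith) (by positivity)
      _ = _ := one_mul _

/-! ### the harmonic case -/

open Classical in
/-- restriction to a set of cosets -/
def cut (A : Finset (Cos C)) (f : Fin a → G → V) : Fin a → G → V :=
  fun j x => if cmk C x ∈ A then f j x else 0

lemma isFin_cut (A : Finset (Cos C)) {f : Fin a → G → V} (hf : IsLf π f) :
    IsFin π A (cut A f) := by
  classical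
  refine ⟨fun j c x => ?_, fun j x hx => ?_⟩
  · rw [cut, cut, cmk_mul]
    split_ifs
    · exact hf j c x
    · exact (app_zero π c).symm
  · by_contra h
    apply hx
    rw [cut, if_neg h]

lemma N2_cut (A : Finset (Cos C)) {f : Fin a → G → V} (hf : IsLf π f) :
    N2 C (cut A f) = mass f A := by
  classical
  rw [(isFin_cut A hf).N2_eq]
  refine Finset.sum_congr rfl fun j _ => Finset.sum_congr rfl fun q hq => ?_
  rw [cut, cmk_rep, if_pos hq]

lemma N2_bd_cut {D : Matrix (Fin a) (Fin b) (MonoidAlgebra ℤ G)} {B : ℝ}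
    (hB : ∀ (A : Finset (Cos C)) (v : Fin a → G → V), IsFin π A v →
      N2 C (bd D v) ≤ B * N2 C v)
    {S : Finset G} (hS : ∀ g ∈ SD D, ∀ g' ∈ SD D, g * g'⁻¹ ∈ S) {f : Fin a → G → V}
    (hf : IsLf π f) (hD : bd D f = 0) (A : Finset (Cos C)) :
    N2 C (bd D (cut A f)) ≤ B * mass f (inBdy S A) := by
  classical
  have hp : ∀ (k : Fin b) (x : G), ‖bd D (cut A f) k x‖ ^ 2 ≤ ‖bd D (cut (inBdy S A) f) k x‖ ^ 2 := by
    intro k x
    by_cases h : ∀ g ∈ SD D, cmk C (x * g⁻¹) ∈ A
    · have h1 : bd D (cut A f) k x = 0 := by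
        rw [bd_congr (f' := f) fun j g hg => by rw [cut, if_pos (h g hg)], hD]
        rfl
      rw [h1, norm_zero, zero_pow two_ne_zero]
      positivity
    · push Not at h
      obtain ⟨g0, hg0, h0⟩ := h
      have h1 : bd D (cut A f) k x = bd D (cut (inBdy S A) f) k x := by
        refine bd_congr (fun j g hg => ?_) k
        rw [cut, cut]
        by_cases h2 : cmk C (x * g⁻¹) ∈ A
        · have h3 : cmk C (x * g⁻¹) ∈ inBdy S A := by
            rw [inBdy, Finset.mem_filter]
            refine ⟨h2, g * g0⁻¹, hS g hg g0 hg0, ?_⟩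
            rw [mulR_cmk]
            have : x * g⁻¹ * (g * g0⁻¹) = x * g0⁻¹ := by group
            rw [this]
            exact h0
          rw [if_pos h2, if_pos h3]
        · have h3 : cmk C (x * g⁻¹) ∉ inBdy S A := fun h => h2 (Finset.mem_of_mem_filter _ h)
          rw [if_neg h2, if_neg h3]
      rw [h1]
  have h1 : N2 C (bd D (cut A f)) ≤ N2 C (bd D (cut (inBdy S A) f)) := by
    refine Finset.sum_le_sum fun k _ => ?_
    refine Summable.tsum_le_tsum (fun q => hp k _) ?_ ?_
    · exact ((isFin_cut A hf).bd (D := D) (S := SD D) subset_rfl).summable k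
    · exact ((isFin_cut (inBdy S A) hf).bd (D := D) (S := SD D) subset_rfl).summable k
  refine h1.trans ?_
  rw [← N2_cut (inBdy S A) hf]
  exact hB _ _ (isFin_cut _ hf)

end

end Pool.Agent.U670.ZS
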