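import Pool.Agent.U670.ZS.Core

set_option autoImplicit false
set_option linter.unusedSectionVars false

open scoped Matrix ENNReal Pointwise

namespace Pool.Agent.U670.ZS

open Pool.Agent.H919R4.ZS (FinRes RedC toRed)
open Pool.Agent.TH98.ZT (URep bd Tempered tempered_of_amenable)
open Pool.Agent.H496R3.ZS (IsAmenable)

noncomputable section

variable {G : Type} [Group G]

/-- the three lower bounds for the growth, if the homology vanishes -/
theorem exists_scale (X : FinRes G) (k : ℕ)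
    (h : ∀ i ≤ k, Subsingleton (X.homology (toRed G) i)) :
    ∃ (S : Finset G) (ε : ℝ), 0 < ε ∧ ∀ {C : Subgroup G} {V : Type} [NormedAddCommGroup V]
      [InnerProductSpace ℂ V] {π : URep C V}, Tempered π →
      ∀ f : Fin (X.n k) → G → V, ¬ IsSlow X k S ε π f := by
  classical
  obtain ⟨K, hK0, hK⟩ := gap_reg X k h
  set D1 := dm X k with hD1
  set D2 := adjM (X.d k) with hD2
  have hcbd : ∀ {W : Type} [AddCommGroup W] (f : Fin (X.n k) → G → W),
      bd D2 f = cbd (X.d k) f := fun f => bd_adjM _ f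
  have hK' : ∀ (u : Fin (X.n k) → G → ℂ) (α : Fin (X.n k) → ℝ)
      (β : Fin (np X k) → ℝ) (γ : Fin (X.n (k + 1)) → ℝ),
      (∀ j, HasSum (fun x => ‖u j x‖ ^ 2) (α j)) →
      (∀ l, HasSum (fun x => ‖bd D1 u l x‖ ^ 2) (β l)) →
      (∀ l, HasSum (fun x => ‖bd D2 u l x‖ ^ 2) (γ l)) →
      ∑ j, α j ≤ K * (∑ l, β l + ∑ l, γ l) := by
    intro u α β γ hα hβ hγ
    exact hK u α β γ hα hβ (fun l => by
      have := hγ l
      rwa [hcbd] at this)
  have hgap : ∀ {C : Subgroup G} {V : Type} [NormedAddCommGroup V] [InnerProductSpace ℂ V]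
      {π : URep C V}, Tempered π → ∀ (A : Finset (Cos C)) (v : Fin (X.n k) → G → V),
      IsFin π A v → N2 C v ≤ K * (N2 C (bd D1 v) + N2 C (bd D2 v)) :=
    fun hπ A v hv => transfer D1 D2 hK' hπ hv
  have hE12 : ∀ {W : Type} [AddCommGroup W] (v : Fin (np X k) → G → W),
      bd D2 (bd (adjM D1) v) = 0 := by
    intro W _ v
    rw [hcbd, bd_adjM, ← cbd_mul, hD1, d_mul_dm, cbd_zero_mat]
  have hE21 : ∀ {W : Type} [AddCommGroup W] (v : Fin (X.n (k + 1)) → G → W),
      bd D1 (bd (adjM D2) v) = 0 := by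
    intro W _ v
    rw [hD2, adjM_adjM, ← bd_mul, hD1, d_mul_dm, bd_zero_mat]
  obtain ⟨B1, hB10, hB1⟩ := N2_bd (adjM D1)
  obtain ⟨B2, hB20, hB2⟩ := N2_bd (adjM D2)
  obtain ⟨B3, hB30, hB3⟩ := N2_bd D1
  obtain ⟨B4, hB40, hB4⟩ := N2_bd D2
  set S3 : Finset G := (SD D1 ∪ SD D2) * (SD D1 ∪ SD D2)⁻¹ with hS3
  set S : Finset G := SS D1 ∪ (SS D2 ∪ S3) with hS
  set P1 : ℝ := (B1 + 1) * (K + 1) with hP1
  set P2 : ℝ := (B2 + 1) * (K + 1) with hP2
  set P3 : ℝ := K * (B3 + B4) with hP3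
  have hP10 : 0 ≤ P1 := by positivity
  have hP20 : 0 ≤ P2 := by positivity
  have hP30 : 0 ≤ P3 := by positivity
  set ε : ℝ := (P1 + P2 + P3 + 1)⁻¹ with hε
  have hε0 : 0 < ε := by positivity
  have hεP : ε * (P1 + P2 + P3 + 1) = 1 := inv_mul_cancel₀ (by positivity)
  refine ⟨S, ε, hε0, fun {C V} _ _ {π} hπ f => ?_⟩
  rintro ⟨hf, ⟨hcyc, A, v, hv, hcoc, hslow⟩ | ⟨hcoc, A, v, hv, hcyc, hslow⟩ | ⟨hcyc, hcoc, A, hA⟩⟩
  · rw [isCyc_iff] at hcyc
    refine core D1 D2 hE12 hK0 hB10 (hgap hπ) (fun A v hv => hB1 π A v hv) (S := S) ?_ hε0 ?_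
      hf hcyc hv ?_ hslow
    · exact Finset.subset_union_left
    · nlinarith [mul_nonneg hε0.le hP20, mul_nonneg hε0.le hP30]
    · rw [hcbd]; exact hcoc
  · rw [isCyc_iff] at hcyc
    refine core D2 D1 hE21 hK0 hB20 (fun A v hv => ?_) (fun A v hv => hB2 π A v hv) (S := S) ?_
      hε0 ?_ hf ?_ hv hcyc hslow
    · rw [add_comm]
      exact hgap hπ A v hv
    · exact Finset.subset_union_left.trans Finset.subset_union_right
    · nlinarith [mul_nonneg hε0.le hP10, mul_nonneg hε0.le hP30]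
    · rw [hcbd]; exact hcoc
  · rw [isCyc_iff] at hcyc
    have hcoc' : bd D2 f = 0 := by rw [hcbd]; exact hcoc
    have h1 := hgap hπ A _ (isFin_cut A hf)
    have hS3S : S3 ⊆ S := Finset.subset_union_right.trans Finset.subset_union_right
    have h2 := N2_bd_cut (D := D1) (fun A v hv => hB3 π A v hv) (S := S)
      (fun g hg g' hg' => hS3S (by
        rw [← inv_inv g', inv_inv]
        exact Finset.mul_mem_mul (Finset.mem_union_left _ hg)
          (Finset.inv_mem_inv (Finset.mem_union_left _ hg')))) hf hcyc A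
    have h3 := N2_bd_cut (D := D2) (fun A v hv => hB4 π A v hv) (S := S)
      (fun g hg g' hg' => hS3S (by
        rw [← inv_inv g', inv_inv]
        exact Finset.mul_mem_mul (Finset.mem_union_right _ hg)
          (Finset.inv_mem_inv (Finset.mem_union_right _ hg')))) hf hcoc' A
    rw [N2_cut A hf] at h1
    set m : ℝ := mass f (inBdy S A) with hm
    have hm0 : 0 ≤ m := mass_nonneg _ _
    have h4 : mass f A ≤ P3 * m := by
      refine h1.trans ?_
      have : K * (N2 C (bd D1 (cut A f)) + N2 C (bd D2 (cut A f))) ≤ K * (B3 * m + B4 * m) :=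
        mul_le_mul_of_nonneg_left (add_le_add h2 h3) hK0
      refine this.trans (le_of_eq ?_)
      rw [hP3]; ring
    have h5 : ε * mass f A ≤ ε * (P3 * m) := mul_le_mul_of_nonneg_left h4 hε0.le
    have h6 : ε * (P3 * m) ≤ m := by
      have e1 : ε * P3 ≤ 1 := by
        nlinarith [mul_nonneg hε0.le hP10, mul_nonneg hε0.le hP20]
      calc ε * (P3 * m) = (ε * P3) * m := by ring
        _ ≤ 1 * m := mul_le_mul_of_nonneg_right e1 hm0
        _ = m := one_mul _
    linarith

/-- **main theorem** -/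
theorem main (X : FinRes G) (k : ℕ)
    (h : ∀ (S : Finset G) (ε : ℝ), 0 < ε → ∃ (C : Subgroup G) (V : Type)
      (_ : NormedAddCommGroup V) (_ : InnerProductSpace ℂ V) (π : URep C V)
      (f : Fin (X.n k) → G → V), (IsAmenable C ∨ Tempered π) ∧ IsSlow X k S ε π f) :
    ∃ i ≤ k, Nontrivial (X.homology (toRed G) i) := by
  by_contra hcon
  push Not at hcon
  have hs : ∀ i ≤ k, Subsingleton (X.homology (toRed G) i) := fun i hi =>
    not_nontrivial_iff_subsingleton.1 (by simpa using hcon i hi)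
  obtain ⟨S, ε, hε, hno⟩ := exists_scale X k hs
  obtain ⟨C, V, _, _, π, f, hπ, hf⟩ := h S ε hε
  have hT : Tempered π := by
    rcases hπ with hC | hT
    · exact tempered_of_amenable hC π
    · exact hT
  exact hno hT f hf

end

end Pool.Agent.U670.ZS
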