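import Pool.Agent.U670.ZS.Defs

set_option autoImplicit false
set_option linter.unusedSectionVars false

namespace Pool.Agent.U670.ZS

open Pool.Agent.H919R4.ZS (FinRes)
open Pool.Agent.TH98.ZT (URep bd)

variable {G : Type} [Group G] {W : Type} [AddCommGroup W]

/-- left action on functions -/
def rt (a : MonoidAlgebra ℤ G) (F : G → W) : G → W :=
  fun x => a.coeff.sum fun g n => n • F (x * g)

/-- right action on functions -/
def lt (a : MonoidAlgebra ℤ G) (F : G → W) : G → W :=
  fun x => a.coeff.sum fun g n => n • F (x * g⁻¹)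

lemma rt_zero (F : G → W) : rt 0 F = 0 := by
  funext x; simp [rt]

lemma rt_add (a b : MonoidAlgebra ℤ G) (F : G → W) : rt (a + b) F = rt a F + rt b F := by
  classical
  funext x
  simp only [rt, Pi.add_apply, MonoidAlgebra.coeff_add]
  exact Finsupp.sum_add_index' (fun _ => zero_smul _ _) (fun _ _ _ => add_smul _ _ _)

lemma rt_single (g : G) (n : ℤ) (F : G → W) :
    rt (MonoidAlgebra.single g n) F = fun x => n • F (x * g) := by
  funext x
  simp only [rt, MonoidAlgebra.coeff_single]
  exact Finsupp.sum_single_index (zero_smul _ _)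

lemma lt_zero (F : G → W) : lt 0 F = 0 := by
  funext x; simp [lt]

lemma lt_add (a b : MonoidAlgebra ℤ G) (F : G → W) : lt (a + b) F = lt a F + lt b F := by
  classical
  funext x
  simp only [lt, Pi.add_apply, MonoidAlgebra.coeff_add]
  exact Finsupp.sum_add_index' (fun _ => zero_smul _ _) (fun _ _ _ => add_smul _ _ _)

lemma lt_single (g : G) (n : ℤ) (F : G → W) :
    lt (MonoidAlgebra.single g n) F = fun x => n • F (x * g⁻¹) := by
  funext x
  simp only [lt, MonoidAlgebra.coeff_single]
  exact Finsupp.sum_single_index (zero_smul _ _)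

lemma rt_fadd (a : MonoidAlgebra ℤ G) (E F : G → W) : rt a (E + F) = rt a E + rt a F := by
  funext x
  simp only [rt, Pi.add_apply, smul_add]
  exact Finsupp.sum_add

lemma lt_fadd (a : MonoidAlgebra ℤ G) (E F : G → W) : lt a (E + F) = lt a E + lt a F := by
  funext x
  simp only [lt, Pi.add_apply, smul_add]
  exact Finsupp.sum_add

lemma rt_fzero (a : MonoidAlgebra ℤ G) : rt a (0 : G → W) = 0 := by
  funext x; simp [rt]

lemma lt_fzero (a : MonoidAlgebra ℤ G) : lt a (0 : G → W) = 0 := by
  funext x; simp [lt]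

lemma rt_mul (a b : MonoidAlgebra ℤ G) (F : G → W) : rt (a * b) F = rt a (rt b F) := by
  induction a using MonoidAlgebra.induction_linear with
  | zero => rw [zero_mul, rt_zero, rt_zero]
  | add x y hx hy => rw [add_mul, rt_add, hx, hy, rt_add]
  | single g n =>
    induction b using MonoidAlgebra.induction_linear with
    | zero => rw [mul_zero, rt_zero, rt_fzero]
    | add x y hx hy => rw [mul_add, rt_add, hx, hy, rt_add, rt_fadd]
    | single h m =>
      rw [MonoidAlgebra.single_mul_single, rt_single, rt_single, rt_single]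
      funext x
      simp only [mul_smul, mul_assoc]

lemma lt_mul (a b : MonoidAlgebra ℤ G) (F : G → W) : lt (a * b) F = lt b (lt a F) := by
  induction a using MonoidAlgebra.induction_linear with
  | zero => rw [zero_mul, lt_zero, lt_fzero]
  | add x y hx hy => rw [add_mul, lt_add, hx, hy, lt_add, lt_fadd]
  | single g n =>
    induction b using MonoidAlgebra.induction_linear with
    | zero => rw [mul_zero, lt_zero, lt_zero]
    | add x y hx hy => rw [mul_add, lt_add, hx, hy, lt_add]
    | single h m =>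
      rw [MonoidAlgebra.single_mul_single, lt_single, lt_single, lt_single]
      funext x
      simp only [mul_inv_rev, ← mul_assoc]
      rw [mul_comm n m, mul_smul]

lemma rt_sum {ι : Type} (s : Finset ι) (a : ι → MonoidAlgebra ℤ G) (F : G → W) :
    rt (∑ i ∈ s, a i) F = ∑ i ∈ s, rt (a i) F := by
  classical
  induction s using Finset.induction_on with
  | empty => simp [rt_zero]
  | insert i s hi ih => rw [Finset.sum_insert hi, Finset.sum_insert hi, rt_add, ih]

lemma lt_sum {ι : Type} (s : Finset ι) (a : ι → MonoidAlgebra ℤ G) (F : G → W) :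
    lt (∑ i ∈ s, a i) F = ∑ i ∈ s, lt (a i) F := by
  classical
  induction s using Finset.induction_on with
  | empty => simp [lt_zero]
  | insert i s hi ih => rw [Finset.sum_insert hi, Finset.sum_insert hi, lt_add, ih]

lemma rt_fsum {ι : Type} (s : Finset ι) (a : MonoidAlgebra ℤ G) (F : ι → G → W) :
    rt a (∑ i ∈ s, F i) = ∑ i ∈ s, rt a (F i) := by
  classical
  induction s using Finset.induction_on with
  | empty => simp [rt_fzero]
  | insert i s hi ih => rw [Finset.sum_insert hi, Finset.sum_insert hi, rt_fadd, ih]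

lemma lt_fsum {ι : Type} (s : Finset ι) (a : MonoidAlgebra ℤ G) (F : ι → G → W) :
    lt a (∑ i ∈ s, F i) = ∑ i ∈ s, lt a (F i) := by
  classical
  induction s using Finset.induction_on with
  | empty => simp [lt_fzero]
  | insert i s hi ih => rw [Finset.sum_insert hi, Finset.sum_insert hi, lt_fadd, ih]

variable {a b c : ℕ}

lemma bd_eq (D : Matrix (Fin a) (Fin b) (MonoidAlgebra ℤ G)) (f : Fin a → G → W) (k : Fin b) :
    bd D f k = ∑ j, lt (D j k) (f j) := by
  funext x
  rw [Finset.sum_apply]
  rfl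

lemma cbd_eq (D : Matrix (Fin a) (Fin b) (MonoidAlgebra ℤ G)) (f : Fin b → G → W) (j : Fin a) :
    cbd D f j = ∑ k, rt (D j k) (f k) := by
  funext x
  rw [Finset.sum_apply]
  rfl

lemma bd_mul (A : Matrix (Fin a) (Fin b) (MonoidAlgebra ℤ G))
    (B : Matrix (Fin b) (Fin c) (MonoidAlgebra ℤ G)) (f : Fin a → G → W) :
    bd (A * B) f = bd B (bd A f) := by
  funext l
  rw [bd_eq, bd_eq]
  simp only [bd_eq, Matrix.mul_apply, lt_sum, lt_fsum, lt_mul]
  exact Finset.sum_comm

lemma cbd_mul (A : Matrix (Fin a) (Fin b) (MonoidAlgebra ℤ G))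
    (B : Matrix (Fin b) (Fin c) (MonoidAlgebra ℤ G)) (f : Fin c → G → W) :
    cbd (A * B) f = cbd A (cbd B f) := by
  funext l
  rw [cbd_eq, cbd_eq]
  simp only [cbd_eq, Matrix.mul_apply, rt_sum, rt_fsum, rt_mul]
  exact Finset.sum_comm

lemma bd_zero_mat (f : Fin a → G → W) :
    bd (0 : Matrix (Fin a) (Fin b) (MonoidAlgebra ℤ G)) f = 0 := by
  funext l
  rw [bd_eq]
  simp [lt_zero]

lemma cbd_zero_mat (f : Fin b → G → W) :
    cbd (0 : Matrix (Fin a) (Fin b) (MonoidAlgebra ℤ G)) f = 0 := by
  funext l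
  rw [cbd_eq]
  simp [rt_zero]

/-- the involution of the group ring -/
def adjE (a : MonoidAlgebra ℤ G) : MonoidAlgebra ℤ G :=
  .ofCoeff (Finsupp.equivMapDomain (Equiv.inv G) a.coeff)

/-- the adjoint matrix -/
def adjM (D : Matrix (Fin a) (Fin b) (MonoidAlgebra ℤ G)) :
    Matrix (Fin b) (Fin a) (MonoidAlgebra ℤ G) := fun k j => adjE (D j k)

lemma adjE_adjE (a : MonoidAlgebra ℤ G) : adjE (adjE a) = a := by
  apply MonoidAlgebra.coeff_injective
  apply Finsupp.ext
  intro g
  change a.coeff ((Equiv.inv G).symm ((Equiv.inv G).symm g)) = _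
  simp

lemma adjM_adjM (D : Matrix (Fin a) (Fin b) (MonoidAlgebra ℤ G)) : adjM (adjM D) = D := by
  funext j k
  exact adjE_adjE _

lemma lt_adjE (a : MonoidAlgebra ℤ G) (F : G → W) : lt (adjE a) F = rt a F := by
  funext x
  simp only [lt, rt, adjE, MonoidAlgebra.coeff_ofCoeff]
  rw [Finsupp.equivMapDomain_eq_mapDomain]
  refine (Finsupp.sum_mapDomain_index (h := fun g n => n • F (x * g⁻¹))
    (fun _ => zero_smul _ _) (fun _ _ _ => add_smul _ _ _)).trans ?_
  simp

lemma bd_adjM (D : Matrix (Fin a) (Fin b) (MonoidAlgebra ℤ G)) (f : Fin b → G → W) :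
    bd (adjM D) f = cbd D f := by
  funext j
  rw [bd_eq, cbd_eq]
  exact Finset.sum_congr rfl fun k _ => lt_adjE _ _

lemma cbd_adjM (D : Matrix (Fin a) (Fin b) (MonoidAlgebra ℤ G)) (f : Fin a → G → W) :
    cbd (adjM D) f = bd D f := by
  rw [← bd_adjM, adjM_adjM]

end Pool.Agent.U670.ZS
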