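import Pool.Agent.TH98.ZT.Defs
import Pool.Agent.H496R3.ZS.Stmt

/-!
Locally finite chains on coverings of a finite aspherical complex, with coefficients in a unitary
representation, and their growth.

Let `X : FinRes G` be the cellular chain complex of the universal cover of a finite aspherical
complex `M` with fundamental group `G`, let `C` be a subgroup of `G` and let `π` be a unitary
representation of `C` on an inner product space `V`. A (locally finite) `k`-chain of the covering
`M_C` of `M` with fundamental group `C`, with coefficients in the flat bundle of `π`, is the same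
as a tuple of functions `f j : G → V`, one for each `k`-cell of `M`, with
`f j (c x) = π(c) (f j x)` for `c ∈ C`. The cells of `M_C` are the pairs of a cell of `M` and a
coset `C x`. Using the inner product of `V`, chains are also cochains.
-/

set_option autoImplicit false

namespace Pool.Agent.U670.ZS

open Pool.Agent.H919R4.ZS (FinRes)
open Pool.Agent.TH98.ZT (URep bd)

variable {G : Type} [Group G]

/-- The set `C \ G` of the cosets `C x`. -/
abbrev Cos (C : Subgroup G) : Type := Quotient (QuotientGroup.rightRel C)

/-- The coset `C x`. -/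
def cmk (C : Subgroup G) (x : G) : Cos C := Quotient.mk _ x

/-- A representative of a coset. -/
noncomputable def rep {C : Subgroup G} (q : Cos C) : G := Quotient.out q

/-- Right translation `C x ↦ C x g` of cosets. -/
noncomputable def mulR {C : Subgroup G} (q : Cos C) (g : G) : Cos C := cmk C (rep q * g)

open Classical in
/-- The cosets at distance at most `r` from the finite set `A`, in the Schreier graph of `C \ G`
whose edges are the pairs `(C x, C x s)`, `s ∈ S`. -/
noncomputable def nbhd {C : Subgroup G} (S : Finset G) : ℕ → Finset (Cos C) → Finset (Cos C)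
  | 0, A => A
  | r + 1, A => nbhd S r (A ∪ Finset.image₂ mulR A S)

open Classical in
/-- The inner boundary of the finite set `A` of cosets: the elements `C x` of `A` with
`C x s ∉ A` for some `s ∈ S`. -/
noncomputable def inBdy {C : Subgroup G} (S : Finset G) (A : Finset (Cos C)) : Finset (Cos C) :=
  A.filter fun q => ∃ s ∈ S, mulR q s ∉ A

/-- Coboundary: `(δ f) j = ∑_k D j k · f k`, where `a = ∑_g a_g g ∈ ℤ[G]` acts from the left on
functions by `(a · f)(x) = ∑_g a_g f(x g)`. It is the adjoint of `bd D`. -/
def cbd {W : Type} [AddCommGroup W] {a b : ℕ} (D : Matrix (Fin a) (Fin b) (MonoidAlgebra ℤ G))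
    (f : Fin b → G → W) : Fin a → G → W :=
  fun j x => ∑ k, ∑ g ∈ (D j k).coeff.support, (D j k).coeff g • f k (x * g)

/-- `f` is a cycle: no condition in degree `0`, and `∂ f = 0` in positive degree. -/
def IsCyc {W : Type} [AddCommGroup W] (X : FinRes G) : ∀ k : ℕ, (Fin (X.n k) → G → W) → Prop
  | 0, _ => True
  | k + 1, f => bd (X.d k) f = 0

/-- `f` is a cocycle: `δ f = 0`. -/
def IsCoc {W : Type} [AddCommGroup W] (X : FinRes G) (k : ℕ) (f : Fin (X.n k) → G → W) : Prop :=
  cbd (X.d k) f = 0

section

variable {C : Subgroup G} {V : Type} [NormedAddCommGroup V] [InnerProductSpace ℂ V]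

/-- The tuple `f` is a locally finite chain of the covering `M_C` with coefficients in `π`:
`f j (c x) = π(c) (f j x)`. -/
def IsLf (π : URep C V) {m : ℕ} (f : Fin m → G → V) : Prop :=
  ∀ (j : Fin m) (c : C) (x : G), f j (c * x) = π.app c (f j x)

/-- The tuple `c` is a finite chain of the covering `M_C`, with support in the finite set `A` of
cosets. -/
def IsFin (π : URep C V) {m : ℕ} (A : Finset (Cos C)) (c : Fin m → G → V) : Prop :=
  IsLf π c ∧ ∀ (j : Fin m) (x : G), c j x ≠ 0 → cmk C x ∈ A

/-- The mass of `f` on the finite set `A` of cosets: the sum of `|f|^2` over `A`. -/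
noncomputable def mass {m : ℕ} (f : Fin m → G → V) (A : Finset (Cos C)) : ℝ :=
  ∑ j, ∑ q ∈ A, ‖f j (rep q)‖ ^ 2

/-- The inner product of `f` and `c` over the finite set `A` of cosets. -/
noncomputable def pair {m : ℕ} (f c : Fin m → G → V) (A : Finset (Cos C)) : ℂ :=
  ∑ j, ∑ q ∈ A, @inner ℂ V InnerProductSpace.toInner (f j (rep q)) (c j (rep q))

/-- `f` has subexponential growth: for all finite sets `S` and `A` and all `ε, δ > 0` the mass of
`f` on the `r`-neighbourhood of `A` is less than `δ (1 + ε)^r` for some `r`. -/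
def IsSubexp {m : ℕ} (f : Fin m → G → V) (C : Subgroup G) : Prop :=
  ∀ (S : Finset G) (A : Finset (Cos C)) (ε δ : ℝ), 0 < ε → 0 < δ →
    ∃ r : ℕ, mass f (nbhd S r A) < δ * (1 + ε) ^ r

/-- `f` has slow growth at scale `(S, ε)`, seen through the finite chain `c` with support in `A`:
for some `r` one has `|c|^2 · (mass of f on the r-neighbourhood of A) < |⟪f, c⟫|^2 (1 + ε)^r`. -/
def SlowAt {m : ℕ} (S : Finset G) (ε : ℝ) (f c : Fin m → G → V) (A : Finset (Cos C)) : Prop :=
  ∃ r : ℕ, mass c A * mass f (nbhd S r A) < ‖pair f c A‖ ^ 2 * (1 + ε) ^ r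

/-- The locally finite `k`-chain `f` of `M_C` is one of the following.
(1) A cycle, with slow growth at scale `(S, ε)` seen through a finite cocycle `c`.
(2) A cocycle, with slow growth at scale `(S, ε)` seen through a finite cycle `c`.
(3) Harmonic (a cycle and a cocycle), and there is a finite set `A` of cosets such that the mass
of `f` on the inner boundary of `A` is less than `ε` times its mass on `A`. -/
def IsSlow (X : FinRes G) (k : ℕ) (S : Finset G) (ε : ℝ) (π : URep C V)
    (f : Fin (X.n k) → G → V) : Prop :=
  IsLf π f ∧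
    ((IsCyc X k f ∧ ∃ A c, IsFin π A c ∧ IsCoc X k c ∧ SlowAt S ε f c A) ∨
      (IsCoc X k f ∧ ∃ A c, IsFin π A c ∧ IsCyc X k c ∧ SlowAt S ε f c A) ∨
      (IsCyc X k f ∧ IsCoc X k f ∧ ∃ A : Finset (Cos C), mass f (inBdy S A) < ε * mass f A))

/-- The locally finite `k`-chain `f` of `M_C` has subexponential growth and is one of the
following. (1) A non-zero cycle, which is also a cocycle or has degree `k = dim M`. (2) A cycle,
with `⟪f, c⟫ ≠ 0` for some finite cocycle `c`. (3) A cocycle, with `⟪f, c⟫ ≠ 0` for some finite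
cycle `c`. -/
def IsGood (X : FinRes G) (k : ℕ) (π : URep C V) (f : Fin (X.n k) → G → V) : Prop :=
  IsLf π f ∧ IsSubexp f C ∧
    ((IsCyc X k f ∧ f ≠ 0 ∧ (k = X.len ∨ IsCoc X k f)) ∨
      (IsCyc X k f ∧ ∃ A c, IsFin π A c ∧ IsCoc X k c ∧ pair f c A ≠ 0) ∨
      (IsCoc X k f ∧ ∃ A c, IsFin π A c ∧ IsCyc X k c ∧ pair f c A ≠ 0))

end

end Pool.Agent.U670.ZS
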