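import Pool.Agent.U670.ZS.Main

set_option autoImplicit false
set_option linter.unusedSectionVars false

open scoped Matrix ENNReal Pointwise

namespace Pool.Agent.U670.ZS

open Pool.Agent.H919R4.ZS (FinRes RedC toRed)
open Pool.Agent.TH98.ZT (URep bd Tempered tempered_of_amenable)
open Pool.Agent.H496R3.ZS (IsAmenable)

noncomputable section

variable {G : Type} [Group G] {C : Subgroup G}

open Classical in
lemma nbhd_succ (S : Finset G) (r : ℕ) (A : Finset (Cos C)) :
    nbhd S (r + 1) A = nbhd S r A ∪ Finset.image₂ mulR (nbhd S r A) S := by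
  induction r generalizing A with
  | zero => rfl
  | succ r ih =>
    rw [nbhd, ih]
    rfl

lemma subset_nbhd (S : Finset G) (r : ℕ) (A : Finset (Cos C)) : A ⊆ nbhd S r A := by
  classical
  induction r with
  | zero => exact subset_rfl
  | succ r ih =>
    rw [nbhd_succ]
    exact ih.trans Finset.subset_union_left

variable {V : Type} [NormedAddCommGroup V] [InnerProductSpace ℂ V] {π : URep C V} {a : ℕ}

/-- the inner boundaries of the neighbourhoods -/
lemma inBdy_step (f : Fin a → G → V) (S : Finset G) (r : ℕ) (A : Finset (Cos C)) :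
    mass f (inBdy S (nbhd S (r + 1) A)) + mass f (nbhd S r A) ≤ mass f (nbhd S (r + 1) A) := by
  classical
  have hdis : Disjoint (inBdy S (nbhd S (r + 1) A)) (nbhd S r A) := by
    rw [Finset.disjoint_left]
    intro q hq hq'
    rw [inBdy, Finset.mem_filter] at hq
    obtain ⟨-, s, hs, hqs⟩ := hq
    apply hqs
    rw [nbhd_succ]
    exact Finset.mem_union_right _ (Finset.mem_image₂.2 ⟨q, hq', s, hs, rfl⟩)
  have hsub : inBdy S (nbhd S (r + 1) A) ∪ nbhd S r A ⊆ nbhd S (r + 1) A := by
    refine Finset.union_subset (Finset.filter_subset _ _) ?_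
    rw [nbhd_succ]
    exact Finset.subset_union_left
  refine le_trans (le_of_eq ?_) (mass_mono f hsub)
  rw [mass, mass, mass, ← Finset.sum_add_distrib]
  exact Finset.sum_congr rfl fun j _ => (Finset.sum_union hdis).symm

/-- a non-zero chain of subexponential growth has the Foelner property -/
lemma foelner_of_subexp {f : Fin a → G → V} (hf : IsLf π f) (h0 : f ≠ 0) (hs : IsSubexp f C)
    (S : Finset G) {ε : ℝ} (hε : 0 < ε) :
    ∃ A : Finset (Cos C), mass f (inBdy S A) < ε * mass f A := by
  classical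
  obtain ⟨j, x, hx⟩ : ∃ j x, f j x ≠ 0 := by
    by_contra h
    push Not at h
    exact h0 (funext fun j => funext fun x => h j x)
  set A : Finset (Cos C) := {cmk C x} with hA
  have hm0 : 0 < mass f A := by
    have h1 : 0 < ‖f j (rep (cmk C x))‖ ^ 2 := by
      have := (hf.norm j).rep x
      rw [this]
      positivity
    refine lt_of_lt_of_le h1 ?_
    have h2 : ∑ q ∈ A, ‖f j (rep q)‖ ^ 2 ≤ mass f A :=
      Finset.single_le_sum (f := fun j => ∑ q ∈ A, ‖f j (rep q)‖ ^ 2)
        (fun _ _ => Finset.sum_nonneg fun _ _ => by positivity) (Finset.mem_univ j)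
    refine le_trans (le_of_eq ?_) h2
    rw [hA, Finset.sum_singleton]
  by_contra hcon
  push Not at hcon
  -- exponential growth
  have key : ∀ r : ℕ, mass f A * (1 + ε) ^ r ≤ mass f (nbhd S r A) := by
    intro r
    induction r with
    | zero => rw [pow_zero, mul_one, nbhd]
    | succ r ih =>
      have h1 := inBdy_step f S r A
      have h2 := hcon (nbhd S (r + 1) A)
      have h3 : mass f (nbhd S r A) ≤ mass f (nbhd S (r + 1) A) := by
        refine le_trans ?_ h1
        exact le_add_of_nonneg_left (mass_nonneg _ _)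
      have h4 : mass f (nbhd S r A) + ε * mass f (nbhd S r A) ≤ mass f (nbhd S (r + 1) A) := by
        have h5 : ε * mass f (nbhd S r A) ≤ ε * mass f (nbhd S (r + 1) A) :=
          mul_le_mul_of_nonneg_left h3 hε.le
        linarith
      rw [pow_succ, ← mul_assoc]
      have h6 : mass f A * (1 + ε) ^ r * (1 + ε) ≤ mass f (nbhd S r A) * (1 + ε) :=
        mul_le_mul_of_nonneg_right ih (by linarith)
      linarith
  obtain ⟨r, hr⟩ := hs S A ε (mass f A) hε hm0
  exact absurd hr (not_lt.2 (key r))

/-- slow growth through a finite chain -/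
lemma slowAt_of_subexp {f v : Fin a → G → V} {A : Finset (Cos C)} (hs : IsSubexp f C)
    (h0 : pair f v A ≠ 0) (S : Finset G) {ε : ℝ} (hε : 0 < ε) : SlowAt S ε f v A := by
  have hp : 0 < ‖pair f v A‖ ^ 2 := by positivity
  have hm : 0 ≤ mass v A := mass_nonneg _ _
  have hm' : 0 < mass v A + 1 := by linarith
  obtain ⟨r, hr⟩ := hs S A ε (‖pair f v A‖ ^ 2 / (mass v A + 1)) hε (by positivity)
  refine ⟨r, ?_⟩
  have h1 : 0 ≤ mass f (nbhd S r A) := mass_nonneg _ _
  have h2 : (mass v A + 1) * mass f (nbhd S r A) < ‖pair f v A‖ ^ 2 * (1 + ε) ^ r := by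
    have h3 := mul_lt_mul_of_pos_left hr hm'
    refine lt_of_lt_of_le h3 (le_of_eq ?_)
    field_simp
  nlinarith

/-- **the criterion for a single chain** -/
theorem single (X : FinRes G) (k : ℕ) (hπ : IsAmenable C ∨ Tempered π)
    (f : Fin (X.n k) → G → V) (h : IsGood X k π f) :
    ∃ i ≤ k, Nontrivial (X.homology (toRed G) i) := by
  obtain ⟨hf, hs, h⟩ := h
  refine main X k fun S ε hε => ⟨C, V, inferInstance, inferInstance, π, f, hπ, hf, ?_⟩
  rcases h with ⟨hcyc, h0, hk⟩ | ⟨hcyc, A, v, hv, hcoc, h0⟩ | ⟨hcoc, A, v, hv, hcyc, h0⟩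
  · refine Or.inr (Or.inr ⟨hcyc, ?_, foelner_of_subexp hf h0 hs S hε⟩)
    rcases hk with hk | hk
    · have hn : X.n (k + 1) = 0 := X.n_eq_zero _ (by omega)
      have hE : IsEmpty (Fin (X.n (k + 1))) := by rw [hn]; infer_instance
      funext j
      exact hE.elim j
    · exact hk
  · exact Or.inl ⟨hcyc, A, v, hv, hcoc, slowAt_of_subexp hs h0 S hε⟩
  · exact Or.inr (Or.inl ⟨hcoc, A, v, hv, hcyc, slowAt_of_subexp hs h0 S hε⟩)

end

end Pool.Agent.U670.ZS
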