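import Pool.Agent.U670.ZS.Sum
import Pool.Agent.TH98.ZT.Amen

set_option autoImplicit false
set_option linter.unusedSectionVars false

open scoped Matrix ENNReal

namespace Pool.Agent.U670.ZS

open Pool.Agent.H919R4.ZS (FinRes RedC toRed L lregL lregL_apply L_single valR act coe_toRed)
open Pool.Agent.TH98.ZT (URep bd coact L2 hasSum_norm_sq adjoint_L_apply)

noncomputable section

variable {G : Type} [Group G]

/-- the rank of the module in degree `k - 1` -/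
def np (X : FinRes G) : ℕ → ℕ
  | 0 => 0
  | k + 1 => X.n k

/-- the differential in degree `k` -/
def dm (X : FinRes G) : ∀ k : ℕ, Matrix (Fin (X.n k)) (Fin (np X k)) (MonoidAlgebra ℤ G)
  | 0 => 0
  | k + 1 => X.d k

lemma d_mul_dm (X : FinRes G) (k : ℕ) : X.d k * dm X k = 0 := by
  cases k with
  | zero => rw [dm, Matrix.mul_zero]
  | succ k => exact Pool.Agent.H919R4.ZS.d_mul_d X k

lemma isCyc_iff {W : Type} [AddCommGroup W] (X : FinRes G) (k : ℕ) (f : Fin (X.n k) → G → W) :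
    IsCyc X k f ↔ bd (dm X k) f = 0 := by
  cases k with
  | zero =>
    refine ⟨fun _ => ?_, fun _ => trivial⟩
    funext l
    exact l.elim0
  | succ k => exact Iff.rfl

lemma L_apply (a : MonoidAlgebra ℤ G) (v : L2 G) (x : G) :
    L a v x = ∑ g ∈ a.coeff.support, a.coeff g • v (g⁻¹ * x) := by
  have h1 : L a = ∑ g ∈ a.coeff.support, (a.coeff g : ℂ) • lregL g := by
    conv_lhs => rw [← MonoidAlgebra.sum_coeff_single a]
    rw [Finsupp.sum, map_sum]
    refine Finset.sum_congr rfl fun g _ => ?_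
    rw [L_single, Int.cast_smul_eq_zsmul]
  rw [h1, sum_apply, lp.coeFn_sum, Finset.sum_apply]
  refine Finset.sum_congr rfl fun g _ => ?_
  rw [smul_apply, lp.coeFn_smul, Pi.smul_apply, lregL_apply]
  simp

/-- norm of the action of a matrix of operators -/
lemma act_le {a b : ℕ} (s : Matrix (Fin a) (Fin b) (L2 G →L[ℂ] L2 G)) (w : Fin b → L2 G) :
    ∑ k, ‖act s w k‖ ^ 2 ≤ (∑ k, ∑ l, ‖s k l‖ ^ 2) * ∑ l, ‖w l‖ ^ 2 := by
  rw [Finset.sum_mul]
  refine Finset.sum_le_sum fun k _ => ?_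
  have e1 : ‖act s w k‖ ≤ ∑ l, ‖s k l‖ * ‖w l‖ :=
    (norm_sum_le _ _).trans (Finset.sum_le_sum fun l _ => ContinuousLinearMap.le_opNorm _ _)
  refine (pow_le_pow_left₀ (norm_nonneg _) e1 2).trans ?_
  exact Finset.sum_mul_sq_le_sq_mul_sq _ _ _

/-- the inequality on vectors -/
lemma bound2 {a b c : ℕ} (P : Matrix (Fin a) (Fin b) (L2 G →L[ℂ] L2 G))
    (s1 : Matrix (Fin b) (Fin a) (L2 G →L[ℂ] L2 G)) (s2 : Matrix (Fin a) (Fin c) (L2 G →L[ℂ] L2 G))
    (Q : Matrix (Fin c) (Fin a) (L2 G →L[ℂ] L2 G)) (h : P * s1 + s2 * Q = 1) (w : Fin a → L2 G) :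
    ∑ j, ‖w j‖ ^ 2 ≤ (2 * ((∑ k, ∑ l, ‖s1 k l‖ ^ 2) + ∑ k, ∑ l, ‖s2 k l‖ ^ 2)) *
      (∑ k, ‖coact P w k‖ ^ 2 + ∑ k, ‖act Q w k‖ ^ 2) := by
  set A : ℝ := ∑ j, ‖w j‖ ^ 2 with hA
  set B : ℝ := ∑ k, ‖coact P w k‖ ^ 2 with hB
  set B' : ℝ := ∑ k, ‖act Q w k‖ ^ 2 with hB'
  set K1 : ℝ := ∑ k, ∑ l, ‖s1 k l‖ ^ 2 with hK1
  set K2 : ℝ := ∑ k, ∑ l, ‖s2 k l‖ ^ 2 with hK2
  have hA0 : 0 ≤ A := Finset.sum_nonneg fun _ _ => by positivity
  have hB0 : 0 ≤ B := Finset.sum_nonneg fun _ _ => by positivity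
  have hB0' : 0 ≤ B' := Finset.sum_nonneg fun _ _ => by positivity
  have hK10 : 0 ≤ K1 := Finset.sum_nonneg fun _ _ => Finset.sum_nonneg fun _ _ => by positivity
  have hK20 : 0 ≤ K2 := Finset.sum_nonneg fun _ _ => Finset.sum_nonneg fun _ _ => by positivity
  have h1 : act P (act s1 w) + act s2 (act Q w) = w := by
    rw [← Pool.Agent.H919R4.ZS.act_mul, ← Pool.Agent.H919R4.ZS.act_mul,
      ← Pool.Agent.H919R4.ZS.act_add, h, Pool.Agent.H919R4.ZS.act_one]
  have h2 : ((A : ℝ) : ℂ) = ∑ k, inner ℂ (coact P w k) (act s1 w k) +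
      ∑ j, inner ℂ (w j) (act s2 (act Q w) j) := by
    have e1 : ∀ j, ((‖w j‖ ^ 2 : ℝ) : ℂ) = inner ℂ (w j) (act P (act s1 w) j) +
        inner ℂ (w j) (act s2 (act Q w) j) := by
      intro j
      rw [← inner_add_right]
      have : act P (act s1 w) j + act s2 (act Q w) j = w j := congrFun h1 j
      rw [this, inner_self_eq_norm_sq_to_K]
      norm_cast
    rw [hA, Complex.ofReal_sum]
    simp only [e1, Finset.sum_add_distrib]
    congr 1
    calc ∑ j, inner ℂ (w j) (act P (act s1 w) j) = ∑ j, ∑ k, inner ℂ (w j) (P j k (act s1 w k)) := by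
          refine Finset.sum_congr rfl fun j _ => ?_
          change inner ℂ (w j) (∑ k, P j k (act s1 w k)) = _
          rw [inner_sum]
      _ = ∑ k, ∑ j, inner ℂ (w j) (P j k (act s1 w k)) := Finset.sum_comm
      _ = ∑ k, inner ℂ (coact P w k) (act s1 w k) := by
          refine Finset.sum_congr rfl fun k _ => ?_
          rw [coact, sum_inner]
          refine Finset.sum_congr rfl fun j _ => ?_
          rw [ContinuousLinearMap.adjoint_inner_left]
  have h3 : A ≤ (∑ k, ‖coact P w k‖ * ‖act s1 w k‖) + ∑ j, ‖w j‖ * ‖act s2 (act Q w) j‖ := by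
    have e1 : A = ‖((A : ℝ) : ℂ)‖ := by rw [Complex.norm_real, Real.norm_of_nonneg hA0]
    rw [e1, h2]
    refine (norm_add_le _ _).trans (add_le_add ?_ ?_)
    · exact (norm_sum_le _ _).trans (Finset.sum_le_sum fun k _ => norm_inner_le_norm _ _)
    · exact (norm_sum_le _ _).trans (Finset.sum_le_sum fun k _ => norm_inner_le_norm _ _)
  have h4 : (∑ k, ‖coact P w k‖ * ‖act s1 w k‖) ^ 2 ≤ B * (K1 * A) := by
    refine (Finset.sum_mul_sq_le_sq_mul_sq _ _ _).trans ?_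
    exact mul_le_mul_of_nonneg_left (act_le s1 w) hB0
  have h5 : (∑ j, ‖w j‖ * ‖act s2 (act Q w) j‖) ^ 2 ≤ A * (K2 * B') := by
    refine (Finset.sum_mul_sq_le_sq_mul_sq _ _ _).trans ?_
    exact mul_le_mul_of_nonneg_left (act_le s2 (act Q w)) hA0
  set p : ℝ := ∑ k, ‖coact P w k‖ * ‖act s1 w k‖ with hp
  set q : ℝ := ∑ j, ‖w j‖ * ‖act s2 (act Q w) j‖ with hq
  have h6 : A ^ 2 ≤ 2 * (B * (K1 * A) + A * (K2 * B')) := by
    have e1 : A ^ 2 ≤ (p + q) ^ 2 := pow_le_pow_left₀ hA0 h3 2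
    have e2 : (p + q) ^ 2 ≤ 2 * (p ^ 2 + q ^ 2) := by nlinarith [sq_nonneg (p - q)]
    linarith
  have h7 : 2 * (B * (K1 * A) + A * (K2 * B')) ≤ (2 * (K1 + K2) * (B + B')) * A := by
    have e1 : 0 ≤ (K2 * B + K1 * B') * A := by positivity
    nlinarith
  rcases hA0.eq_or_lt with h8 | h8
  · rw [← h8]; positivity
  · have : A * A ≤ (2 * (K1 + K2) * (B + B')) * A := by nlinarith
    exact le_of_mul_le_mul_right this h8

/-- **the spectral gap** for square summable functions on `G` -/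
theorem gap_reg (X : FinRes G) (k : ℕ) (h : ∀ i ≤ k, Subsingleton (X.homology (toRed G) i)) :
    ∃ K : ℝ, 0 ≤ K ∧ ∀ (u : Fin (X.n k) → G → ℂ) (α : Fin (X.n k) → ℝ)
      (β : Fin (np X k) → ℝ) (γ : Fin (X.n (k + 1)) → ℝ),
      (∀ j, HasSum (fun x => ‖u j x‖ ^ 2) (α j)) →
      (∀ l, HasSum (fun x => ‖bd (dm X k) u l x‖ ^ 2) (β l)) →
      (∀ l, HasSum (fun x => ‖cbd (X.d k) u l x‖ ^ 2) (γ l)) →
      ∑ j, α j ≤ K * (∑ l, β l + ∑ l, γ l) := by
  obtain ⟨s, -, hs⟩ := Pool.Agent.TH254.ZT.exists_contr X (toRed G) k h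
  have key : ∀ i, ((X.d i).map (toRed G)).map (valR (G := G)) = (X.d i).map (L (G := G)) := by
    intro i
    refine funext fun j => funext fun k => ?_
    exact coe_toRed (X.d i j k)
  obtain ⟨s1, s2, f0⟩ : ∃ (s1 : Matrix (Fin (np X k)) (Fin (X.n k)) (L2 G →L[ℂ] L2 G))
      (s2 : Matrix (Fin (X.n k)) (Fin (X.n (k + 1))) (L2 G →L[ℂ] L2 G)),
      (dm X k).map (L (G := G)) * s1 + s2 * (X.d k).map (L (G := G)) = 1 := by
    cases k with
    | zero =>
      refine ⟨0, s.map (valR (G := G)), ?_⟩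
      have := Pool.Agent.H919R4.ZS.map_ident0 (valR (G := G)) _ _ hs
      rw [key] at this
      rw [Matrix.mul_zero, zero_add]
      exact this
    | succ k =>
      obtain ⟨s', hs'⟩ := hs
      refine ⟨s'.map (valR (G := G)), s.map (valR (G := G)), ?_⟩
      have := Pool.Agent.H919R4.ZS.map_ident (valR (G := G)) _ _ _ _ hs'
      rw [key, key] at this
      exact this
  refine ⟨2 * ((∑ k, ∑ l, ‖s1 k l‖ ^ 2) + ∑ k, ∑ l, ‖s2 k l‖ ^ 2), ?_,
    fun u α β γ hα hβ hγ => ?_⟩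
  · exact mul_nonneg zero_le_two (add_nonneg
      (Finset.sum_nonneg fun _ _ => Finset.sum_nonneg fun _ _ => by positivity)
      (Finset.sum_nonneg fun _ _ => Finset.sum_nonneg fun _ _ => by positivity))
  have hmem : ∀ j, Memℓp (fun x : G => u j x⁻¹) 2 := by
    intro j
    have h1 : Summable fun x => ‖u j x⁻¹‖ ^ 2 :=
      (Equiv.inv G).summable_iff.2 (hα j).summable
    refine memℓp_gen ?_
    have h4 : (2 : ENNReal).toReal = ((2 : ℕ) : ℝ) := by norm_num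
    simp only [h4, Real.rpow_natCast]
    exact h1
  obtain ⟨w, hw⟩ : ∃ w : Fin (X.n k) → L2 G, ∀ j x, w j x = u j x⁻¹ :=
    ⟨fun j => ⟨fun x => u j x⁻¹, hmem j⟩, fun j x => rfl⟩
  have h1 : ∀ j, ‖w j‖ ^ 2 = α j := by
    intro j
    have e1 : (fun x => ‖w j x‖ ^ 2) = (fun x => ‖u j x‖ ^ 2) ∘ (Equiv.inv G) := by
      funext x
      rw [hw]
      rfl
    exact (hasSum_norm_sq (w j)).unique (e1 ▸ (Equiv.inv G).hasSum_iff.2 (hα j))
  have h2 : ∀ l x, coact ((dm X k).map (L (G := G))) w l x = bd (dm X k) u l x⁻¹ := by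
    intro l x
    rw [coact, lp.coeFn_sum, Finset.sum_apply, bd]
    refine Finset.sum_congr rfl fun j _ => ?_
    rw [Matrix.map_apply, adjoint_L_apply]
    refine Finset.sum_congr rfl fun g _ => ?_
    rw [hw, mul_inv_rev]
  have h2' : ∀ l x, act ((X.d k).map (L (G := G))) w l x = cbd (X.d k) u l x⁻¹ := by
    intro l x
    rw [act, lp.coeFn_sum, Finset.sum_apply, cbd]
    refine Finset.sum_congr rfl fun j _ => ?_
    rw [Matrix.map_apply, L_apply]
    refine Finset.sum_congr rfl fun g _ => ?_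
    rw [hw, mul_inv_rev, inv_inv]
  have h3 : ∀ l, ‖coact ((dm X k).map (L (G := G))) w l‖ ^ 2 = β l := by
    intro l
    have e1 : (fun x => ‖coact ((dm X k).map (L (G := G))) w l x‖ ^ 2) =
        (fun x => ‖bd (dm X k) u l x‖ ^ 2) ∘ (Equiv.inv G) := by
      funext x
      rw [h2]
      rfl
    exact (hasSum_norm_sq _).unique (e1 ▸ (Equiv.inv G).hasSum_iff.2 (hβ l))
  have h3' : ∀ l, ‖act ((X.d k).map (L (G := G))) w l‖ ^ 2 = γ l := by
    intro l
    have e1 : (fun x => ‖act ((X.d k).map (L (G := G))) w l x‖ ^ 2) =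
        (fun x => ‖cbd (X.d k) u l x‖ ^ 2) ∘ (Equiv.inv G) := by
      funext x
      rw [h2']
      rfl
    exact (hasSum_norm_sq _).unique (e1 ▸ (Equiv.inv G).hasSum_iff.2 (hγ l))
  have h4 := bound2 _ s1 s2 _ f0 w
  simp only [h1, h3, h3'] at h4
  exact h4

end

end Pool.Agent.U670.ZS
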