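import Pool.Agent.U670.ZS.Alg
import Pool.Agent.TH98.ZT.Main

set_option autoImplicit false
set_option linter.unusedSectionVars false

namespace Pool.Agent.U670.ZS

open Pool.Agent.H919R4.ZS (FinRes)
open Pool.Agent.TH98.ZT (URep bd)

noncomputable section

variable {G : Type} [Group G] {C : Subgroup G}

lemma cmk_eq_iff {x y : G} : cmk C x = cmk C y ↔ y * x⁻¹ ∈ C := by
  rw [cmk, cmk, Quotient.eq]
  exact QuotientGroup.rightRel_apply

lemma cmk_rep (q : Cos C) : cmk C (rep q) = q := Quotient.out_eq q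

lemma rep_cmk (x : G) : ∃ c : C, rep (cmk C x) = c * x := by
  have h := cmk_eq_iff.1 (cmk_rep (cmk C x))
  refine ⟨⟨x * (rep (cmk C x))⁻¹, h⟩⁻¹, ?_⟩
  change rep (cmk C x) = (x * (rep (cmk C x))⁻¹)⁻¹ * x
  group

lemma cmk_mul (c : C) (x : G) : cmk C (c * x) = cmk C x := by
  rw [cmk_eq_iff]
  have : x * ((c : G) * x)⁻¹ = ((c⁻¹ : C) : G) := by
    rw [mul_inv_rev, mul_inv_cancel_left]
    rfl
  rw [this]
  exact (c⁻¹).2

lemma mulR_cmk (x g : G) : mulR (cmk C x) g = cmk C (x * g) := by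
  obtain ⟨c, hc⟩ := rep_cmk (C := C) x
  rw [mulR, hc, mul_assoc, cmk_mul]

lemma mulR_mulR (q : Cos C) (g h : G) : mulR (mulR q g) h = mulR q (g * h) := by
  conv_lhs => rw [← cmk_rep q]
  rw [mulR_cmk, mulR_cmk, mul_assoc]
  rfl

lemma mulR_one (q : Cos C) : mulR q 1 = q := by
  rw [mulR, mul_one, cmk_rep]

/-- right translation by `g` -/
def mulE (g : G) : Cos C ≃ Cos C where
  toFun q := mulR q g
  invFun q := mulR q g⁻¹
  left_inv q := by
    change mulR (mulR q g) g⁻¹ = q
    rw [mulR_mulR, mul_inv_cancel, mulR_one]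
  right_inv q := by
    change mulR (mulR q g⁻¹) g = q
    rw [mulR_mulR, inv_mul_cancel, mulR_one]

/-- invariant functions -/
def Inva (C : Subgroup G) {E : Type} (φ : G → E) : Prop := ∀ (c : C) (x : G), φ (c * x) = φ x

lemma Inva.rep {E : Type} {φ : G → E} (h : Inva C φ) (x : G) : φ (rep (cmk C x)) = φ x := by
  obtain ⟨c, hc⟩ := rep_cmk (C := C) x
  rw [hc, h]

lemma Inva.shift {E : Type} {φ : G → E} (h : Inva C φ) (g : G) : Inva C fun x => φ (x * g) := by
  intro c x
  change φ (c * x * g) = φ (x * g)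
  rw [mul_assoc, h]

lemma tsum_shift {E : Type} [AddCommMonoid E] [TopologicalSpace E] {φ : G → E} (h : Inva C φ)
    (g : G) : ∑' q : Cos C, φ (rep q * g) = ∑' q : Cos C, φ (rep q) := by
  rw [← (mulE g).tsum_eq (fun q : Cos C => φ (rep q))]
  refine tsum_congr fun q => ?_
  exact (h.rep (rep q * g)).symm

section chains

variable {V : Type} [NormedAddCommGroup V] [InnerProductSpace ℂ V] {π : URep C V} {a b : ℕ}

lemma app_inner (π : URep C V) (c : C) (u v : V) :
    @inner ℂ V InnerProductSpace.toInner (π.app c u) (π.app c v) = inner ℂ u v :=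
  (π.hom c).inner_map_map u v

lemma app_norm (π : URep C V) (c : C) (u : V) : ‖π.app c u‖ = ‖u‖ := (π.hom c).norm_map u

lemma app_zero (π : URep C V) (c : C) : π.app c 0 = 0 := map_zero (π.hom c)

lemma IsLf.norm {f : Fin a → G → V} (hf : IsLf π f) (j : Fin a) : Inva C fun x => ‖f j x‖ ^ 2 := by
  intro c x
  change ‖f j (c * x)‖ ^ 2 = ‖f j x‖ ^ 2
  rw [hf, app_norm]

lemma IsLf.bd {f : Fin a → G → V} (hf : IsLf π f)
    (D : Matrix (Fin a) (Fin b) (MonoidAlgebra ℤ G)) : IsLf π (bd D f) := fun k c x =>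
  Pool.Agent.TH98.ZT.bd_ext_equi π.hom D f hf k c x

/-- the elements occurring in a matrix -/
def SD (D : Matrix (Fin a) (Fin b) (MonoidAlgebra ℤ G)) : Finset G := by
  classical
  exact Finset.univ.biUnion fun j => Finset.univ.biUnion fun k => (D j k).coeff.support

lemma mem_SD {D : Matrix (Fin a) (Fin b) (MonoidAlgebra ℤ G)} {j : Fin a} {k : Fin b} {g : G}
    (h : g ∈ (D j k).coeff.support) : g ∈ SD D := by
  classical
  rw [SD]
  exact Finset.mem_biUnion.2 ⟨j, Finset.mem_univ _, Finset.mem_biUnion.2 ⟨k, Finset.mem_univ _, h⟩⟩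

lemma bd_ne_zero {D : Matrix (Fin a) (Fin b) (MonoidAlgebra ℤ G)} {f : Fin a → G → V} {k : Fin b}
    {x : G} (h : bd D f k x ≠ 0) : ∃ j, ∃ g ∈ SD D, f j (x * g⁻¹) ≠ 0 := by
  obtain ⟨j, -, hj⟩ := Finset.exists_ne_zero_of_sum_ne_zero h
  obtain ⟨g, hg, hgj⟩ := Finset.exists_ne_zero_of_sum_ne_zero hj
  refine ⟨j, g, mem_SD hg, ?_⟩
  intro h0
  rw [h0, smul_zero] at hgj
  exact hgj rfl

open Classical in
lemma IsFin.bd {A : Finset (Cos C)} {v : Fin a → G → V} (hv : IsFin π A v)
    {D : Matrix (Fin a) (Fin b) (MonoidAlgebra ℤ G)} {S : Finset G} (hS : SD D ⊆ S) :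
    IsFin π (Finset.image₂ mulR A S) (bd D v) := by
  refine ⟨hv.1.bd D, fun k x hx => ?_⟩
  obtain ⟨j, g, hg, h1⟩ := bd_ne_zero hx
  have h2 := hv.2 j _ h1
  refine Finset.mem_image₂.2 ⟨_, h2, g, hS hg, ?_⟩
  rw [mulR_cmk, inv_mul_cancel_right]

lemma IsFin.mono {A B : Finset (Cos C)} {v : Fin a → G → V} (hv : IsFin π A v) (h : A ⊆ B) :
    IsFin π B v := ⟨hv.1, fun j x hx => h (hv.2 j x hx)⟩

lemma IsFin.sub {A : Finset (Cos C)} {u v : Fin a → G → V} (hu : IsFin π A u) (hv : IsFin π A v) :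
    IsFin π A (u - v) := by
  refine ⟨fun j c x => ?_, fun j x hx => ?_⟩
  · change u j (c * x) - v j (c * x) = π.hom c (u j x - v j x)
    rw [map_sub, hu.1, hv.1]
    rfl
  · by_cases h1 : u j x = 0
    · refine hv.2 j x ?_
      intro h2
      apply hx
      change u j x - v j x = 0
      rw [h1, h2, sub_zero]
    · exact hu.2 j x h1

lemma IsFin.smul {A : Finset (Cos C)} {v : Fin a → G → V} (hv : IsFin π A v) (κ : ℝ) :
    IsFin π A (fun j x => ((κ : ℝ) : ℂ) • v j x) := by
  refine ⟨fun j c x => ?_, fun j x hx => ?_⟩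
  · change ((κ : ℝ) : ℂ) • v j (c * x) = π.hom c (((κ : ℝ) : ℂ) • v j x)
    rw [map_smul, hv.1]
    rfl
  · refine hv.2 j x ?_
    intro h
    apply hx
    change ((κ : ℝ) : ℂ) • v j x = 0
    rw [h, smul_zero]

lemma IsFin.eq_zero {A : Finset (Cos C)} {v : Fin a → G → V} (hv : IsFin π A v) (j : Fin a)
    {q : Cos C} (hq : q ∉ A) : v j (rep q) = 0 := by
  by_contra h
  have := hv.2 j _ h
  rw [cmk_rep] at this
  exact hq this

/-- the square of the norm -/
def N2 (C : Subgroup G) (v : Fin a → G → V) : ℝ := ∑ j, ∑' q : Cos C, ‖v j (rep q)‖ ^ 2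

/-- the inner product -/
def ipr (C : Subgroup G) (u v : Fin a → G → V) : ℂ :=
  ∑ j, ∑' q : Cos C, @inner ℂ V InnerProductSpace.toInner (u j (rep q)) (v j (rep q))

lemma IsFin.N2_eq {A : Finset (Cos C)} {v : Fin a → G → V} (hv : IsFin π A v) :
    N2 C v = mass v A := by
  refine Finset.sum_congr rfl fun j _ => tsum_eq_sum fun q hq => ?_
  rw [hv.eq_zero j hq, norm_zero]
  norm_num

lemma IsFin.summable {A : Finset (Cos C)} {v : Fin a → G → V} (hv : IsFin π A v) (j : Fin a) :
    Summable fun q : Cos C => ‖v j (rep q)‖ ^ 2 :=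
  summable_of_ne_finset_zero (s := A) fun q hq => by
    rw [hv.eq_zero j hq, norm_zero]
    norm_num

lemma IsFin.ipr_eq {A : Finset (Cos C)} {v : Fin a → G → V} (hv : IsFin π A v)
    (u : Fin a → G → V) : ipr C u v = pair u v A := by
  refine Finset.sum_congr rfl fun j _ => tsum_eq_sum fun q hq => ?_
  rw [hv.eq_zero j hq, inner_zero_right]

lemma IsFin.summable_ip {A : Finset (Cos C)} {v : Fin a → G → V} (hv : IsFin π A v)
    (u : Fin a → G → V) (j : Fin a) :
    Summable fun q : Cos C => @inner ℂ V InnerProductSpace.toInner (u j (rep q)) (v j (rep q)) :=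
  summable_of_ne_finset_zero (s := A) fun q hq => by
    rw [hv.eq_zero j hq, inner_zero_right]

lemma N2_nonneg (v : Fin a → G → V) : 0 ≤ N2 C v :=
  Finset.sum_nonneg fun _ _ => tsum_nonneg fun _ => by positivity

lemma mass_nonneg (v : Fin a → G → V) (A : Finset (Cos C)) : 0 ≤ mass v A :=
  Finset.sum_nonneg fun _ _ => Finset.sum_nonneg fun _ _ => by positivity

lemma mass_mono (v : Fin a → G → V) {A B : Finset (Cos C)} (h : A ⊆ B) : mass v A ≤ mass v B :=
  Finset.sum_le_sum fun _ _ => Finset.sum_le_sum_of_subset_of_nonneg h fun _ _ _ => by positivity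

/-- Cauchy-Schwarz -/
lemma pair_le (u v : Fin a → G → V) (A : Finset (Cos C)) :
    ‖pair u v A‖ ^ 2 ≤ mass u A * mass v A := by
  have h1 : ‖pair u v A‖ ≤ ∑ p ∈ (Finset.univ : Finset (Fin a)) ×ˢ A,
      ‖u p.1 (rep p.2)‖ * ‖v p.1 (rep p.2)‖ := by
    rw [Finset.sum_product]
    refine (norm_sum_le _ _).trans (Finset.sum_le_sum fun j _ => ?_)
    refine (norm_sum_le _ _).trans (Finset.sum_le_sum fun q _ => ?_)
    exact norm_inner_le_norm _ _
  have h2 : mass u A = ∑ p ∈ (Finset.univ : Finset (Fin a)) ×ˢ A, ‖u p.1 (rep p.2)‖ ^ 2 := by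
    rw [Finset.sum_product]; rfl
  have h3 : mass v A = ∑ p ∈ (Finset.univ : Finset (Fin a)) ×ˢ A, ‖v p.1 (rep p.2)‖ ^ 2 := by
    rw [Finset.sum_product]; rfl
  rw [h2, h3]
  refine (pow_le_pow_left₀ (norm_nonneg _) h1 2).trans ?_
  exact Finset.sum_mul_sq_le_sq_mul_sq _ _ _

/-- adjointness -/
lemma ipr_bd {A : Finset (Cos C)} {f : Fin a → G → V} {v : Fin b → G → V} (hf : IsLf π f)
    (hv : IsFin π A v) (D : Matrix (Fin a) (Fin b) (MonoidAlgebra ℤ G)) :
    ipr C (bd D f) v = ipr C f (cbd D v) := by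
  classical
  have hs : ∀ (j : Fin a) (k : Fin b) (g : G), Summable fun q : Cos C =>
      @inner ℂ V InnerProductSpace.toInner (f j (rep q * g⁻¹)) (v k (rep q)) := by
    intro j k g
    refine summable_of_ne_finset_zero (s := A) fun q hq => ?_
    rw [hv.eq_zero k hq, inner_zero_right]
  have hs' : ∀ (j : Fin a) (k : Fin b) (g : G), Summable fun q : Cos C =>
      @inner ℂ V InnerProductSpace.toInner (f j (rep q)) (v k (rep q * g)) := by
    intro j k g
    refine summable_of_ne_finset_zero (s := A.image fun q => mulR q g⁻¹) fun q hq => ?_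
    have : v k (rep q * g) = 0 := by
      by_contra h
      apply hq
      have h1 := hv.2 k _ h
      refine Finset.mem_image.2 ⟨_, h1, ?_⟩
      rw [mulR_cmk, mul_inv_cancel_right, cmk_rep]
    rw [this, inner_zero_right]
  have e1 : ipr C (bd D f) v = ∑ k, ∑ j, ∑ g ∈ (D j k).coeff.support, ((D j k).coeff g : ℂ) *
      ∑' q : Cos C, @inner ℂ V InnerProductSpace.toInner (f j (rep q * g⁻¹)) (v k (rep q)) := by
    refine Finset.sum_congr rfl fun k _ => ?_
    simp only [bd, sum_inner]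
    rw [Summable.tsum_finsetSum]
    · refine Finset.sum_congr rfl fun j _ => ?_
      rw [Summable.tsum_finsetSum]
      · refine Finset.sum_congr rfl fun g _ => ?_
        rw [← tsum_mul_left]
        refine tsum_congr fun q => ?_
        rw [← Int.cast_smul_eq_zsmul ℂ, inner_smul_left, map_intCast]
      · intro g _
        have := (hs j k g).mul_left ((D j k).coeff g : ℂ)
        refine this.congr fun q => ?_
        rw [← Int.cast_smul_eq_zsmul ℂ, inner_smul_left, map_intCast]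
    · intro j _
      refine summable_sum fun g _ => ?_
      have := (hs j k g).mul_left ((D j k).coeff g : ℂ)
      refine this.congr fun q => ?_
      rw [← Int.cast_smul_eq_zsmul ℂ, inner_smul_left, map_intCast]
  have e2 : ipr C f (cbd D v) = ∑ j, ∑ k, ∑ g ∈ (D j k).coeff.support, ((D j k).coeff g : ℂ) *
      ∑' q : Cos C, @inner ℂ V InnerProductSpace.toInner (f j (rep q)) (v k (rep q * g)) := by
    refine Finset.sum_congr rfl fun j _ => ?_
    simp only [cbd, inner_sum]
    rw [Summable.tsum_finsetSum]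
    · refine Finset.sum_congr rfl fun k _ => ?_
      rw [Summable.tsum_finsetSum]
      · refine Finset.sum_congr rfl fun g _ => ?_
        rw [← tsum_mul_left]
        refine tsum_congr fun q => ?_
        rw [← Int.cast_smul_eq_zsmul ℂ, inner_smul_right]
      · intro g _
        have := (hs' j k g).mul_left ((D j k).coeff g : ℂ)
        refine this.congr fun q => ?_
        rw [← Int.cast_smul_eq_zsmul ℂ, inner_smul_right]
    · intro k _
      refine summable_sum fun g _ => ?_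
      have := (hs' j k g).mul_left ((D j k).coeff g : ℂ)
      refine this.congr fun q => ?_
      rw [← Int.cast_smul_eq_zsmul ℂ, inner_smul_right]
  rw [e1, e2, Finset.sum_comm]
  refine Finset.sum_congr rfl fun j _ => Finset.sum_congr rfl fun k _ =>
    Finset.sum_congr rfl fun g _ => ?_
  congr 1
  have hφ : Inva C fun x => @inner ℂ V InnerProductSpace.toInner (f j (x * g⁻¹)) (v k x) := by
    intro c x
    change @inner ℂ V InnerProductSpace.toInner (f j (c * x * g⁻¹)) (v k (c * x)) =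
      inner ℂ (f j (x * g⁻¹)) (v k x)
    rw [mul_assoc, hf, hv.1, app_inner]
  rw [← tsum_shift hφ g]
  refine tsum_congr fun q => ?_
  rw [mul_inv_cancel_right]

/-- boundedness -/
lemma N2_bd (D : Matrix (Fin a) (Fin b) (MonoidAlgebra ℤ G)) : ∃ B : ℝ, 0 ≤ B ∧
    ∀ {C : Subgroup G} {V : Type} [NormedAddCommGroup V] [InnerProductSpace ℂ V] (π : URep C V)
      (A : Finset (Cos C)) (v : Fin a → G → V), IsFin π A v → N2 C (bd D v) ≤ B * N2 C v := by
  classical
  refine ⟨∑ k : Fin b, (a : ℝ) * ∑ j : Fin a, ((D j k).coeff.support.card : ℝ) *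
    ∑ g ∈ (D j k).coeff.support, ((D j k).coeff g : ℝ) ^ 2, ?_, ?_⟩
  · refine Finset.sum_nonneg fun k _ => mul_nonneg (by positivity) (Finset.sum_nonneg fun j _ =>
      mul_nonneg (by positivity) (Finset.sum_nonneg fun g _ => by positivity))
  intro C V _ _ π A v hv
  have hb := hv.bd (D := D) (S := SD D) subset_rfl
  have hs : ∀ (j : Fin a) (g : G), Summable fun q : Cos C => ‖v j (rep q * g⁻¹)‖ ^ 2 := by
    intro j g
    refine summable_of_ne_finset_zero (s := A.image fun q => mulR q g) fun q hq => ?_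
    have : v j (rep q * g⁻¹) = 0 := by
      by_contra h
      apply hq
      have h1 := hv.2 j _ h
      refine Finset.mem_image.2 ⟨_, h1, ?_⟩
      rw [mulR_cmk, inv_mul_cancel_right, cmk_rep]
    rw [this, norm_zero]
    norm_num
  have hshift : ∀ (j : Fin a) (g : G), ∑' q : Cos C, ‖v j (rep q * g⁻¹)‖ ^ 2 =
      ∑' q : Cos C, ‖v j (rep q)‖ ^ 2 := fun j g => tsum_shift (hv.1.norm j) g⁻¹
  have hle : ∀ j : Fin a, ∑' q : Cos C, ‖v j (rep q)‖ ^ 2 ≤ N2 C v := fun j =>
    Finset.single_le_sum (f := fun j => ∑' q : Cos C, ‖v j (rep q)‖ ^ 2)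
      (fun _ _ => tsum_nonneg fun _ => by positivity) (Finset.mem_univ j)
  rw [Finset.sum_mul]
  refine Finset.sum_le_sum fun k _ => ?_
  have hpt : ∀ x : G, ‖bd D v k x‖ ^ 2 ≤ ∑ j : Fin a, ∑ g ∈ (D j k).coeff.support,
      ((a : ℝ) * ((D j k).coeff.support.card : ℝ) * ((D j k).coeff g : ℝ) ^ 2) *
        ‖v j (x * g⁻¹)‖ ^ 2 := by
    intro x
    have h1 : ‖bd D v k x‖ ^ 2 ≤ (a : ℝ) * ∑ j : Fin a,
        ‖∑ g ∈ (D j k).coeff.support, (D j k).coeff g • v j (x * g⁻¹)‖ ^ 2 := by
      refine (pow_le_pow_left₀ (norm_nonneg _) (norm_sum_le _ _) 2).trans ?_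
      refine sq_sum_le_card_mul_sum_sq.trans ?_
      rw [Finset.card_univ, Fintype.card_fin]
    refine h1.trans ?_
    rw [Finset.mul_sum]
    refine Finset.sum_le_sum fun j _ => ?_
    have h2 : ‖∑ g ∈ (D j k).coeff.support, (D j k).coeff g • v j (x * g⁻¹)‖ ^ 2 ≤
        ((D j k).coeff.support.card : ℝ) * ∑ g ∈ (D j k).coeff.support,
          ((D j k).coeff g : ℝ) ^ 2 * ‖v j (x * g⁻¹)‖ ^ 2 := by
      refine (pow_le_pow_left₀ (norm_nonneg _) (norm_sum_le _ _) 2).trans ?_
      refine sq_sum_le_card_mul_sum_sq.trans (le_of_eq ?_)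
      congr 1
      refine Finset.sum_congr rfl fun g _ => ?_
      rw [← Int.cast_smul_eq_zsmul ℂ, norm_smul, mul_pow]
      congr 1
      rw [Complex.norm_intCast, sq_abs]
    refine (mul_le_mul_of_nonneg_left h2 (by positivity)).trans (le_of_eq ?_)
    rw [← mul_assoc, Finset.mul_sum]
    refine Finset.sum_congr rfl fun g _ => ?_
    ring
  calc ∑' q : Cos C, ‖bd D v k (rep q)‖ ^ 2 ≤ ∑' q : Cos C, ∑ j : Fin a,
        ∑ g ∈ (D j k).coeff.support,
        ((a : ℝ) * ((D j k).coeff.support.card : ℝ) * ((D j k).coeff g : ℝ) ^ 2) *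
        ‖v j (rep q * g⁻¹)‖ ^ 2 := by
        refine Summable.tsum_le_tsum (fun q => hpt (rep q)) (hb.summable k) ?_
        exact summable_sum fun j _ => summable_sum fun g _ => (hs j g).mul_left _
    _ = ∑ j : Fin a, ∑ g ∈ (D j k).coeff.support,
        ((a : ℝ) * ((D j k).coeff.support.card : ℝ) * ((D j k).coeff g : ℝ) ^ 2) *
          ∑' q : Cos C, ‖v j (rep q)‖ ^ 2 := by
        rw [Summable.tsum_finsetSum fun j _ => summable_sum fun g _ => (hs j g).mul_left _]
        refine Finset.sum_congr rfl fun j _ => ?_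
        rw [Summable.tsum_finsetSum fun g _ => (hs j g).mul_left _]
        refine Finset.sum_congr rfl fun g _ => ?_
        rw [tsum_mul_left, hshift]
    _ ≤ ∑ j : Fin a, ∑ g ∈ (D j k).coeff.support,
        ((a : ℝ) * ((D j k).coeff.support.card : ℝ) * ((D j k).coeff g : ℝ) ^ 2) * N2 C v := by
        refine Finset.sum_le_sum fun j _ => Finset.sum_le_sum fun g _ => ?_
        exact mul_le_mul_of_nonneg_left (hle j) (by positivity)
    _ = (a : ℝ) * (∑ j : Fin a, ((D j k).coeff.support.card : ℝ) *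
        ∑ g ∈ (D j k).coeff.support, ((D j k).coeff g : ℝ) ^ 2) * N2 C v := by
        rw [Finset.mul_sum, Finset.sum_mul]
        refine Finset.sum_congr rfl fun j _ => ?_
        rw [← Finset.sum_mul]
        congr 1
        rw [Finset.mul_sum, Finset.mul_sum]
        refine Finset.sum_congr rfl fun g _ => ?_
        ring

end chains

end

end Pool.Agent.U670.ZS
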