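import Pool.Agent.U670.ZS.Gap

set_option autoImplicit false
set_option linter.unusedSectionVars false

open scoped Matrix ENNReal

namespace Pool.Agent.U670.ZS

open Pool.Agent.H919R4.ZS (FinRes RedC toRed)
open Pool.Agent.TH98.ZT (URep bd Tempered regCoef ker ext reg AA BB AA_ker BB_ker ext_at ext_equi
  ext_supp eq_ext hasSum_orbit bd_ext_equi exists_reps_bd)

noncomputable section

variable {G : Type} [Group G] {C : Subgroup G}

/-- a sum over the cosets as a sum over representatives -/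
lemma reps_sum {φ : G → ℝ} (hφ : Inva C φ) (T : Finset G)
    (hT : ∀ t ∈ T, ∀ t' ∈ T, t * t'⁻¹ ∈ C → t = t')
    (hs : ∀ x, φ x ≠ 0 → ∃ t ∈ T, x * t⁻¹ ∈ C) :
    ∑' q : Cos C, φ (rep q) = ∑ t ∈ T, φ t := by
  classical
  rw [tsum_eq_sum (s := T.image (cmk C))]
  · rw [Finset.sum_image]
    · exact Finset.sum_congr rfl fun t _ => hφ.rep t
    · intro x hx y hy hxy
      exact (hT y hy x hx (cmk_eq_iff.1 hxy)).symm
  · intro q hq
    by_contra h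
    obtain ⟨t, ht, htC⟩ := hs _ h
    apply hq
    refine Finset.mem_image.2 ⟨t, ht, ?_⟩
    have : cmk C t = cmk C (rep q) := cmk_eq_iff.2 htC
    rw [this, cmk_rep]

variable {a b c : ℕ}

section

variable {T T1 T2 : Finset G}

/-- the inequality for the regular representation -/
lemma reg_ineq2 (D1 : Matrix (Fin a) (Fin b) (MonoidAlgebra ℤ G))
    (D2 : Matrix (Fin a) (Fin c) (MonoidAlgebra ℤ G)) {K : ℝ}
    (hK : ∀ (u : Fin a → G → ℂ) (α : Fin a → ℝ) (β : Fin b → ℝ) (γ : Fin c → ℝ),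
      (∀ j, HasSum (fun x => ‖u j x‖ ^ 2) (α j)) →
      (∀ k, HasSum (fun x => ‖bd D1 u k x‖ ^ 2) (β k)) →
      (∀ k, HasSum (fun x => ‖bd D2 u k x‖ ^ 2) (γ k)) → ∑ j, α j ≤ K * (∑ k, β k + ∑ k, γ k))
    (hT : ∀ t ∈ T, ∀ t' ∈ T, t * t'⁻¹ ∈ C → t = t')
    (hT1 : ∀ t ∈ T1, ∀ t' ∈ T1, t * t'⁻¹ ∈ C → t = t')
    (hT2 : ∀ t ∈ T2, ∀ t' ∈ T2, t * t'⁻¹ ∈ C → t = t')
    (hTT1 : ∀ f : Fin a → G → Pool.Agent.TH98.ZT.L2 C,
        (∀ (j : Fin a) (x : G), f j x ≠ 0 → ∃ t ∈ T, x * t⁻¹ ∈ C) →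
        ∀ (k : Fin b) (x : G), bd D1 f k x ≠ 0 → ∃ t ∈ T1, x * t⁻¹ ∈ C)
    (hTT2 : ∀ f : Fin a → G → Pool.Agent.TH98.ZT.L2 C,
        (∀ (j : Fin a) (x : G), f j x ≠ 0 → ∃ t ∈ T, x * t⁻¹ ∈ C) →
        ∀ (k : Fin c) (x : G), bd D2 f k x ≠ 0 → ∃ t ∈ T2, x * t⁻¹ ∈ C)
    (x : Fin a × T → Pool.Agent.TH98.ZT.L2 C) :
    (AA C T a (ker reg x)).re ≤ K * ((BB C T T1 D1 (ker reg x)).re +
      (BB C T T2 D2 (ker reg x)).re) := by
  rw [AA_ker, BB_ker, BB_ker, Complex.ofReal_re, Complex.ofReal_re, Complex.ofReal_re]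
  have hbd : ∀ {b : ℕ} (D : Matrix (Fin a) (Fin b) (MonoidAlgebra ℤ G)) {T' : Finset G}
      (_ : ∀ t ∈ T', ∀ t' ∈ T', t * t'⁻¹ ∈ C → t = t')
      (_ : ∀ f : Fin a → G → Pool.Agent.TH98.ZT.L2 C,
        (∀ (j : Fin a) (x : G), f j x ≠ 0 → ∃ t ∈ T, x * t⁻¹ ∈ C) →
        ∀ (k : Fin b) (x : G), bd D f k x ≠ 0 → ∃ t ∈ T', x * t⁻¹ ∈ C) (k : Fin b),
      HasSum (fun y => ‖bd D (fun j y => ext reg x j y 1) k y‖ ^ 2)
        (∑ y ∈ T', ‖bd D (ext reg x) k y‖ ^ 2) := by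
    intro b D T' hT' hTT' k
    have h2 := hasSum_orbit (bd D (ext reg x) k)
      (fun c y => bd_ext_equi reg D (ext reg x) (fun j c y => ext_equi reg x j c y) k c y) T' hT'
      (hTT' (ext reg x) (fun j y hy => ext_supp reg x j y hy) k)
    have e : (fun y => ‖bd D (fun j y => ext reg x j y 1) k y‖ ^ 2) =
        fun y => ‖bd D (ext reg x) k y 1‖ ^ 2 := by
      funext y
      congr 2
      rw [bd, bd, lp.coeFn_sum, Finset.sum_apply]
      refine Finset.sum_congr rfl fun j _ => ?_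
      rw [lp.coeFn_sum, Finset.sum_apply]
      refine Finset.sum_congr rfl fun g _ => ?_
      rfl
    rw [e]
    exact h2
  have h1 := hK (fun j y => ext reg x j y 1) (fun j => ∑ t ∈ T, ‖ext reg x j t‖ ^ 2)
    (fun k => ∑ y ∈ T1, ‖bd D1 (ext reg x) k y‖ ^ 2)
    (fun k => ∑ y ∈ T2, ‖bd D2 (ext reg x) k y‖ ^ 2) (fun j =>
      hasSum_orbit (ext reg x j) (fun c y => ext_equi reg x j c y) T hT
        (fun y hy => ext_supp reg x j y hy))
    (hbd D1 hT1 hTT1) (hbd D2 hT2 hTT2)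
  have h3 : ∀ j, ∑ t : T, ‖x (j, t)‖ ^ 2 = ∑ t ∈ T, ‖ext reg x j t‖ ^ 2 := by
    intro j
    rw [← Finset.sum_coe_sort T]
    refine Finset.sum_congr rfl fun t _ => ?_
    rw [ext_at reg hT x j t]
  simp only [h3]
  exact h1

end

/-- **transfer** of the gap to finite chains with tempered coefficients -/
theorem transfer (D1 : Matrix (Fin a) (Fin b) (MonoidAlgebra ℤ G))
    (D2 : Matrix (Fin a) (Fin c) (MonoidAlgebra ℤ G)) {K : ℝ}
    (hK : ∀ (u : Fin a → G → ℂ) (α : Fin a → ℝ) (β : Fin b → ℝ) (γ : Fin c → ℝ),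
      (∀ j, HasSum (fun x => ‖u j x‖ ^ 2) (α j)) →
      (∀ k, HasSum (fun x => ‖bd D1 u k x‖ ^ 2) (β k)) →
      (∀ k, HasSum (fun x => ‖bd D2 u k x‖ ^ 2) (γ k)) → ∑ j, α j ≤ K * (∑ k, β k + ∑ k, γ k))
    {V : Type} [NormedAddCommGroup V] [InnerProductSpace ℂ V] {π : URep C V} (hπ : Tempered π)
    {A : Finset (Cos C)} {f : Fin a → G → V} (hf : IsFin π A f) :
    N2 C f ≤ K * (N2 C (bd D1 f) + N2 C (bd D2 f)) := by
  classical
  set T : Finset G := A.image rep with hTdef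
  have hT : ∀ t ∈ T, ∀ t' ∈ T, t * t'⁻¹ ∈ C → t = t' := by
    intro t ht t' ht' h
    obtain ⟨q, -, rfl⟩ := Finset.mem_image.1 ht
    obtain ⟨q', -, rfl⟩ := Finset.mem_image.1 ht'
    have h1 := cmk_eq_iff.2 h
    rw [cmk_rep, cmk_rep] at h1
    rw [h1]
  have hs : ∀ (j : Fin a) (x : G), f j x ≠ 0 → ∃ t ∈ T, x * t⁻¹ ∈ C := by
    intro j x hx
    have h1 := hf.2 j x hx
    refine ⟨rep (cmk C x), Finset.mem_image_of_mem _ h1, ?_⟩
    exact cmk_eq_iff.1 (cmk_rep (cmk C x))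
  obtain ⟨T1, hT1, hTT1⟩ := exists_reps_bd C T D1
  obtain ⟨T2, hT2, hTT2⟩ := exists_reps_bd C T D2
  have hfe := eq_ext π.hom hT f hf.1 hs
  set v : Fin a × T → V := fun p => f p.1 p.2 with hv
  have h1 : ker π.hom v ∈ closure {κ : (Fin a × T) × (Fin a × T) × C → ℂ |
      ∃ (N : ℕ) (w : Fin a × T → Fin N → Pool.Agent.TH98.ZT.L2 C), κ = regCoef w} :=
    hπ (Fin a × T) v
  have h2 : IsClosed {κ : (Fin a × T) × (Fin a × T) × C → ℂ |
      (AA C T a κ).re ≤ K * ((BB C T T1 D1 κ).re + (BB C T T2 D2 κ).re)} := by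
    refine isClosed_le ?_ ?_
    · exact Complex.continuous_re.comp (AA C T a).continuous
    · exact continuous_const.mul ((Complex.continuous_re.comp (BB C T T1 D1).continuous).add
        (Complex.continuous_re.comp (BB C T T2 D2).continuous))
  have h3 : ker π.hom v ∈ {κ : (Fin a × T) × (Fin a × T) × C → ℂ |
      (AA C T a κ).re ≤ K * ((BB C T T1 D1 κ).re + (BB C T T2 D2 κ).re)} := by
    refine closure_minimal ?_ h2 h1
    rintro _ ⟨N, w, rfl⟩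
    have e1 : regCoef w = ∑ a, ker reg (fun q => w q a) := by
      funext p
      rw [Finset.sum_apply]
      rfl
    change (AA C T a _).re ≤ K * ((BB C T T1 D1 _).re + (BB C T T2 D2 _).re)
    rw [e1, map_sum, map_sum, map_sum, Complex.re_sum, Complex.re_sum, Complex.re_sum,
      ← Finset.sum_add_distrib, Finset.mul_sum]
    refine Finset.sum_le_sum fun a _ => ?_
    exact reg_ineq2 D1 D2 hK hT hT1 hT2 (fun f hf => hTT1 f hf) (fun f hf => hTT2 f hf)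
      (fun q => w q a)
  change (AA C T a (ker π.hom v)).re ≤ K * ((BB C T T1 D1 (ker π.hom v)).re +
    (BB C T T2 D2 (ker π.hom v)).re) at h3
  rw [AA_ker, BB_ker, BB_ker, Complex.ofReal_re, Complex.ofReal_re, Complex.ofReal_re,
    ← hfe] at h3
  have e1 : N2 C f = ∑ j : Fin a, ∑ t : T, ‖v (j, t)‖ ^ 2 := by
    refine Finset.sum_congr rfl fun j _ => ?_
    rw [reps_sum (hf.1.norm j) T hT fun x hx => hs j x fun h0 => hx (by
      rw [h0, norm_zero]; norm_num), ← Finset.sum_coe_sort T]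
  have e2 : ∀ {b : ℕ} (D : Matrix (Fin a) (Fin b) (MonoidAlgebra ℤ G)) {T' : Finset G}
      (_ : ∀ t ∈ T', ∀ t' ∈ T', t * t'⁻¹ ∈ C → t = t')
      (_ : ∀ (k : Fin b) (x : G), bd D f k x ≠ 0 → ∃ t ∈ T', x * t⁻¹ ∈ C),
      N2 C (bd D f) = ∑ k, ∑ y ∈ T', ‖bd D f k y‖ ^ 2 := by
    intro b D T' hT' hTT'
    refine Finset.sum_congr rfl fun k _ => ?_
    rw [reps_sum ((hf.1.bd D).norm k) T' hT' fun x hx => hTT' k x fun h0 => hx (by
      rw [h0, norm_zero]; norm_num)]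
  rw [e1, e2 D1 hT1 (hTT1 f hs), e2 D2 hT2 (hTT2 f hs)]
  exact h3

end

end Pool.Agent.U670.ZS
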